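import Pool.Agent.Work.MP_db9399_ts_helper61.FLBh
import Pool.Agent.Work.MP_db9399_ts_helper55.PHASE
import Pool.Agent.Work.MP_db9399_ts_helper79.FSY

/-!
# MP_db9399, TSPLIT, block FLB (helper61)

`stmt_FLB`: labels and flexible weights with all internal and external properties. From PHASE
(helper55) for the system of the flexible edges (FSY, helper79), with the following tests (fat
pairs; pairs of blocks of different clusters; hubs outside the cluster) and functionals for the
pairs of blocks of one cluster.
-/

set_option autoImplicit false

namespace Pool.Agent.Work.MP_db9399_ts.helper61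

open Pool.Agent.Work.MP_db9399_ts

universe u

/-- **FLB**, no hypotheses. -/
theorem stmt_FLB : Stmt_FLB.{u} := flb Pool.Agent.Work.MP_db9399_ts.stmt_PHASE.{u} Pool.Agent.Work.MP_db9399_ts.helper79.stmt_FSY.{u}

end Pool.Agent.Work.MP_db9399_ts.helper61
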