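import Pool.Agent.Work.MP_db9399_ts.Light

/-!
# MP_db9399, TSPLIT, block FLB, part 1: PHASE for the system of the flexible edges (helper61)
-/

set_option autoImplicit false
set_option linter.unusedSectionVars false

namespace Pool.Agent.Work.MP_db9399_ts.helper61

open Finset Classical
open Pool.Agent.Work.MP_db9399_all (nb)
open Pool.Agent.Work.MP_db9399_clj.helper75 (OO blk nB eE)
open Pool.Agent.Work.MP_db9399_ts

universe u

/-- `mem_filter` for any decidability instance -/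
theorem mf {α : Type*} {p : α → Prop} {inst : DecidablePred p} {s : Finset α} {a : α} :
    a ∈ @Finset.filter α p inst s ↔ a ∈ s ∧ p a := mem_filter

section Basic

variable {W B : Type u} [Fintype W] [Fintype B]

theorem mem_nb {G : SimpleGraph W} {v w : W} : w ∈ nb G v ↔ G.Adj v w := by
  unfold nb
  rw [mem_filter]
  exact ⟨fun h => h.2, fun h => ⟨mem_univ _, h⟩⟩

theorem eE_comm (E : SimpleGraph W) (A A' : Finset W) : eE E A A' = eE E A' A := by
  unfold eE
  have h := Finset.sum_card_bipartiteAbove_eq_sum_card_bipartiteBelow (s := A) (t := A')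
    (fun v w => E.Adj v w)
  have h1 : ∀ v, (bipartiteAbove (fun v w => E.Adj v w) A' v) = nb E v ∩ A' := by
    intro v
    ext w
    simp only [bipartiteAbove, mem_filter, mem_inter, mem_nb]
    exact and_comm
  have h2 : ∀ w, (bipartiteBelow (fun v w => E.Adj v w) A w) = nb E w ∩ A := by
    intro w
    ext v
    simp only [bipartiteBelow, mem_filter, mem_inter, mem_nb]
    exact ⟨fun h => ⟨h.2.symm, h.1⟩, fun h => ⟨h.2, h.1.symm⟩⟩
  simp only [h1, h2] at h
  exact_mod_cast h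

theorem mem_blk {bl : W → Option B} {b : B} {v : W} : v ∈ blk bl b ↔ bl v = some b := by
  unfold blk
  rw [mem_filter]
  exact ⟨fun h => h.2, fun h => ⟨mem_univ _, h⟩⟩

theorem e_comm (X : Dat W B) (b b' : B) : X.e b b' = X.e b' b := eE_comm _ _ _

theorem tp_comm {X : Dat W B} {c : ℝ} {b b' : B} (h : X.tp c b b') : X.tp c b' b :=
  ⟨fun h' => h.1 h'.symm, by rw [e_comm]; exact h.2⟩

theorem flL_comm {X : Dat W B} {Ty : Kd → Prop} {gr : W → Fin 3} {c : ℝ} {v w : W}
    (h : X.flL Ty gr c v w) : X.flL Ty gr c w v := by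
  obtain ⟨h1, ⟨b, b', h2, h3, h4, h5⟩, h6⟩ := h
  exact ⟨h1.symm, ⟨b', b, h3, h2, tp_comm h4, h5.symm⟩, fun h => h6 ⟨h.2.1, h.1, h.2.2.symm⟩⟩

theorem fl_light {X : Dat W B} {Ty : Kd → Prop} {gr : W → Fin 3} {c : ℝ} {v y : W}
    (h : X.fl Ty gr c v y) : ∃ b, X.bl v = some b := by
  rcases h with h | h
  · obtain ⟨b, hb, _⟩ := (mem_filter.1 h.2.1).2
    exact ⟨b, hb⟩
  · obtain ⟨b, _, hb, _⟩ := h.2.1
    exact ⟨b, hb⟩

theorem fl_none {X : Dat W B} {Ty : Kd → Prop} {gr : W → Fin 3} {c : ℝ} {v y : W}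
    (h : X.fl Ty gr c v y) (hy : X.bl y = none) : X.flH c v y := by
  rcases h with h | h
  · exact h
  · obtain ⟨_, b, _, hb, _⟩ := h.2.1
    rw [hy] at hb
    exact absurd hb (by simp)

theorem fl_some {X : Dat W B} {Ty : Kd → Prop} {gr : W → Fin 3} {c : ℝ} {v y : W}
    (h : X.fl Ty gr c v y) (hy : X.bl y ≠ none) : X.flL Ty gr c v y := by
  rcases h with h | h
  · exact absurd h.1 hy
  · exact h

theorem fl_ne {X : Dat W B} {Ty : Kd → Prop} {gr : W → Fin 3} {c : ℝ} {v y : W}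
    (h : X.fl Ty gr c v y) : v ≠ y := by
  rcases h with h | h
  · have := (mem_filter.1 h.2.1).1
    exact ((mem_nb.1 this).ne).symm
  · exact h.1.ne

theorem mv_none {X : Dat W B} {Ty : Kd → Prop} {g : ℕ} {L : W → Fin g} {k : Fin g} {y : W}
    (h : ¬ X.ty Ty y) : X.mv Ty L k y = 1 := by
  unfold Dat.mv mu
  rw [if_neg (fun h' => h (mem_filter.1 h').2)]

theorem not_ty {X : Dat W B} {Ty : Kd → Prop} {y : W} (h : X.bl y = none) : ¬ X.ty Ty y := by
  rintro ⟨b, hb, _⟩
  rw [h] at hb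
  exact absurd hb (by simp)

theorem ty_iff {X : Dat W B} {Ty : Kd → Prop} {v : W} {b : B} (h : X.bl v = some b) :
    X.ty Ty v ↔ Ty (X.kd b) := by
  constructor
  · rintro ⟨b', hb', h'⟩
    rw [h] at hb'
    rw [Option.some.inj hb']
    exact h'
  · exact fun h' => ⟨b, h, h'⟩

theorem mv_abs {X : Dat W B} {Ty : Kd → Prop} {g : ℕ} (hg : 2 ≤ g) (L : W → Fin g) (k : Fin g)
    (v : W) : |X.mv Ty L k v - 1| ≤ 1 := by
  unfold Dat.mv mu
  have h2 : (2 : ℝ) ≤ g := by exact_mod_cast hg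
  split_ifs
  · norm_num
  · have h4 : (g : ℝ) - 1 ≠ 0 := fun h => by linarith
    have h3 : (g : ℝ) / (g - 1) - 1 = 1 / (g - 1) := by
      field_simp
      ring
    rw [h3, abs_of_nonneg (by apply div_nonneg <;> linarith)]
    rw [div_le_one (by linarith)]
    linarith
  · norm_num

theorem prod_ends {X : Dat W B} {Ty : Kd → Prop} {gr : W → Fin 3} {c : ℝ} {g : ℕ}
    (L : W → Fin g) (k : Fin g) {v y : W} (h : X.fl Ty gr c v y)
    (inst : DecidablePred fun n => (X.sys Ty gr c).ed n = s(v, y)) :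
    ∏ n ∈ @Finset.filter (X.En Ty gr c) (fun n => (X.sys Ty gr c).ed n = s(v, y)) inst univ,
      mu g (univ.filter fun v => X.ty Ty v) L k
      ((X.sys Ty gr c).vx n) = X.mv Ty L k v * X.mv Ty L k y := by
  have hne := fl_ne h
  by_cases hy : X.bl y = none
  · have h1 : (univ.filter fun n => (X.sys Ty gr c).ed n = s(v, y)) =
        {(⟨(v, y), h⟩ : X.En Ty gr c)} := by
      ext n
      rw [mem_filter, mem_singleton]
      constructor
      · rintro ⟨_, hn⟩
        obtain ⟨⟨a, b⟩, hab⟩ := n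
        rcases Sym2.eq_iff.1 hn with ⟨h2, h3⟩ | ⟨h2, h3⟩
        · simp only at h2 h3
          subst h2 h3
          rfl
        · simp only at h2 h3
          subst h2 h3
          obtain ⟨b', hb'⟩ := fl_light hab
          rw [hy] at hb'
          exact absurd hb' (by simp)
      · rintro rfl
        exact ⟨mem_univ _, rfl⟩
    rw [h1, prod_singleton]
    have h2 : X.mv Ty L k y = 1 := mv_none (not_ty hy)
    rw [h2, mul_one]
    rfl
  · have h' : X.fl Ty gr c y v := Or.inr (flL_comm (fl_some h hy))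
    have h1 : @Finset.filter (X.En Ty gr c) (fun n => (X.sys Ty gr c).ed n = s(v, y)) inst univ =
        {(⟨(v, y), h⟩ : X.En Ty gr c), ⟨(y, v), h'⟩} := by
      ext n
      rw [mem_filter, mem_insert, mem_singleton]
      constructor
      · rintro ⟨_, hn⟩
        obtain ⟨⟨a, b⟩, hab⟩ := n
        rcases Sym2.eq_iff.1 hn with ⟨h2, h3⟩ | ⟨h2, h3⟩
        · simp only at h2 h3
          subst h2 h3
          exact Or.inl rfl
        · simp only at h2 h3
          subst h2 h3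
          exact Or.inr rfl
      · rintro (rfl | rfl)
        · exact ⟨mem_univ _, rfl⟩
        · exact ⟨mem_univ _, Sym2.eq_swap⟩
    rw [h1, prod_pair (fun h2 => hne (congrArg (fun n => n.1.1) h2))]
    rfl

theorem sum_hub {X : Dat W B} {Ty : Kd → Prop} {gr : W → Fin 3} {c : ℝ} (F : Sym2 W → ℝ) {x : W}
    (hx : X.bl x = none) (hc : (X.d : ℝ) ^ (c / 4) ≤ ((X.sc c x).card : ℝ))
    (inst : DecidablePred fun n => (X.sys Ty gr c).pu n = some (Sum.inl x)) :
    ∑ n ∈ @Finset.filter (X.En Ty gr c) (fun n => (X.sys Ty gr c).pu n = some (Sum.inl x)) inst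
      univ, F ((X.sys Ty gr c).ed n) =
      ∑ v ∈ X.sc c x, F s(v, x) := by
  refine (Finset.sum_bij (fun v hv => (⟨(v, x), Or.inl ⟨hx, hv, hc⟩⟩ : X.En Ty gr c))
    (fun v hv => ?_) (fun v hv w hw h => ?_) (fun n hn => ?_) (fun v hv => rfl)).symm
  · rw [mem_filter]
    refine ⟨mem_univ _, ?_⟩
    show (if X.bl x = none then some (Sum.inl x) else _) = some (Sum.inl x)
    rw [if_pos hx]
  · exact congrArg (fun n => n.1.1) h
  · obtain ⟨⟨a, b⟩, hab⟩ := n
    have h1 := (mem_filter.1 hn).2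
    change (if X.bl b = none then some (Sum.inl b) else
      (X.rw b).bind fun q => if X.par Ty gr c q then some (Sum.inr q) else none) = _ at h1
    by_cases hb : X.bl b = none
    · rw [if_pos hb] at h1
      have h2 : b = x := Sum.inl.inj (Option.some.inj h1)
      subst h2
      exact ⟨a, (fl_none hab hb).2.1, rfl⟩
    · rw [if_neg hb] at h1
      obtain ⟨q, _, hq⟩ := Option.bind_eq_some_iff.1 h1
      split_ifs at hq
      exact absurd (Option.some.inj hq) (by simp)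

theorem rw_iff {X : Dat W B} {v : W} {b : B} (hb : X.kd b = Kd.S) :
    X.rw v = some b ↔ X.bl v = some b := by
  unfold Dat.rw
  constructor
  · intro h
    obtain ⟨b', h1, h2⟩ := Option.bind_eq_some_iff.1 h
    split_ifs at h2
    rw [← Option.some.inj h2]
    exact h1
  · intro h
    rw [h]
    show (if X.kd b = Kd.S then some b else none) = some b
    rw [if_pos hb]

theorem sum_row {X : Dat W B} {Ty : Kd → Prop} {gr : W → Fin 3} {c : ℝ} (F : Sym2 W → ℝ) {b : B}
    (hb : X.kd b = Kd.S)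
    (inst : DecidablePred fun n => (X.sys Ty gr c).row ((X.sys Ty gr c).vx n) = some b) :
    ∑ n ∈ @Finset.filter (X.En Ty gr c) (fun n => (X.sys Ty gr c).row ((X.sys Ty gr c).vx n) =
      some b) inst univ, F ((X.sys Ty gr c).ed n) =
      ∑ v ∈ blk X.bl b, ∑ y with X.fl Ty gr c v y, F s(v, y) := by
  rw [Finset.sum_sigma']
  symm
  refine Finset.sum_bij (fun (x : Σ _ : W, W) hx => (⟨(x.1, x.2),
    (mem_filter.1 (mem_sigma.1 hx).2).2⟩ : X.En Ty gr c))
    (fun x hx => ?_) (fun x hx y hy h => ?_) (fun n hn => ?_) (fun x hx => rfl)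
  · rw [mem_filter]
    refine ⟨mem_univ _, ?_⟩
    exact (rw_iff hb).2 (mem_blk.1 (mem_sigma.1 hx).1)
  · have h1 := congrArg (fun n => n.1.1) h
    have h2 := congrArg (fun n => n.1.2) h
    obtain ⟨x1, x2⟩ := x
    obtain ⟨y1, y2⟩ := y
    simp only at h1 h2
    subst h1 h2
    rfl
  · obtain ⟨⟨a, y⟩, hay⟩ := n
    exact ⟨⟨a, y⟩, mem_sigma.2 ⟨mem_blk.2 ((rw_iff hb).1 (mem_filter.1 hn).2),
      mem_filter.2 ⟨mem_univ _, hay⟩⟩, rfl⟩

theorem w0_hub {X : Dat W B} {Ty : Kd → Prop} {g : ℕ} {c σ : ℝ} {off : Fin g → W → ℝ} (hσ : σ ≠ 0)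
    (k : Fin g) {v x : W} (hv : v ∈ X.sc c x) (hx : X.bl x = none) :
    X.w0 Ty c σ off k s(v, x) = σ + if X.h3 c x then off k x / ((X.sc c x).card : ℝ) else 0 := by
  obtain ⟨hvx, b, hb, _⟩ := mem_filter.1 hv
  have hne : v ≠ x := fun h => by
    rw [h, hx] at hb
    exact absurd hb (by simp)
  unfold Dat.w0 Dat.bas
  rw [if_neg (fun h => not_ty (Ty := Ty) hx (h x (Sym2.mem_mk_right v x))), mul_one]
  by_cases h3 : X.h3 c x
  · rw [if_pos h3]
    have h4 : (univ.filter fun y => y ∈ s(v, x) ∧ X.h3 c y) = {x} := by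
      ext y
      rw [mem_filter, mem_singleton]
      constructor
      · rintro ⟨_, h5, h6⟩
        rcases Sym2.mem_iff.1 h5 with rfl | h7
        · have := h6.1.1
          rw [hb] at this
          exact absurd this (by simp)
        · exact h7
      · rintro rfl
        exact ⟨mem_univ _, Sym2.mem_mk_right v y, h3⟩
    rw [h4, sum_singleton, mul_add, mul_one]
    congr 1
    rw [mul_comm σ, ← div_div, div_right_comm, div_mul_cancel₀ _ hσ]
  · rw [if_neg h3]
    have h4 : (univ.filter fun y => y ∈ s(v, x) ∧ X.h3 c y) = ∅ := by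
      rw [filter_eq_empty_iff]
      rintro y _ ⟨h5, h6⟩
      rcases Sym2.mem_iff.1 h5 with rfl | rfl
      · have := h6.1.1
        rw [hb] at this
        exact absurd this (by simp)
      · exact h3 h6
    rw [h4, sum_empty, add_zero, mul_one, add_zero]

theorem asy (K a b : ℝ) (h : a < b) : ∃ d0 : ℕ, ∀ d : ℕ, d0 ≤ d →
    3 ≤ d ∧ K * Real.log d ^ 2 * (d : ℝ) ^ a ≤ (d : ℝ) ^ b := by
  have h1 := (isLittleO_log_rpow_rpow_atTop (2 : ℝ) (sub_pos.2 h)).bound
    (c := (|K| + 1)⁻¹) (by positivity)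
  obtain ⟨x0, hx0⟩ := Filter.eventually_atTop.1 h1
  refine ⟨max 3 ⌈x0⌉₊, fun d hd => ⟨le_trans (le_max_left _ _) hd, ?_⟩⟩
  have hd3 : (3 : ℝ) ≤ d := by exact_mod_cast le_trans (le_max_left _ _) hd
  have h2 := hx0 d (le_trans (Nat.le_ceil x0)
    (by exact_mod_cast le_trans (le_max_right _ _) hd))
  have hd0 : (0 : ℝ) < d := by linarith
  have hl : 0 ≤ Real.log d := Real.log_nonneg (by linarith)
  rw [Real.norm_of_nonneg (Real.rpow_nonneg hl _), Real.norm_of_nonneg
    (Real.rpow_nonneg hd0.le _), Real.rpow_two] at h2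
  have h3 : K * Real.log d ^ 2 ≤ (d : ℝ) ^ (b - a) := by
    have h4 : K * Real.log d ^ 2 ≤ (|K| + 1) * Real.log d ^ 2 :=
      mul_le_mul_of_nonneg_right ((le_abs_self K).trans (by linarith)) (sq_nonneg _)
    refine h4.trans ((mul_le_mul_of_nonneg_left h2 (by positivity)).trans (le_of_eq ?_))
    rw [← mul_assoc, mul_inv_cancel₀ (by positivity), one_mul]
  calc K * Real.log d ^ 2 * (d : ℝ) ^ a ≤ (d : ℝ) ^ (b - a) * (d : ℝ) ^ a :=
        mul_le_mul_of_nonneg_right h3 (Real.rpow_nonneg hd0.le _)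
    _ = (d : ℝ) ^ b := by rw [← Real.rpow_add hd0, sub_add_cancel]

theorem one_le_logsq {d : ℕ} (h : 3 ≤ d) : 1 ≤ Real.log d ^ 2 := by
  have h1 : 1 ≤ Real.log d := by
    rw [Real.le_log_iff_exp_le (by positivity)]
    have h3 : (3 : ℝ) ≤ d := by exact_mod_cast h
    exact (Real.exp_one_lt_d9.le.trans (by norm_num)).trans h3
  exact one_le_pow₀ h1

theorem asy0 (K a b : ℝ) (hK : 0 ≤ K) (h : a < b) : ∃ d0 : ℕ, ∀ d : ℕ, d0 ≤ d →
    3 ≤ d ∧ K * (d : ℝ) ^ a ≤ (d : ℝ) ^ b := by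
  obtain ⟨d0, h0⟩ := asy K a b h
  refine ⟨d0, fun d hd => ⟨(h0 d hd).1, le_trans ?_ (h0 d hd).2⟩⟩
  refine mul_le_mul_of_nonneg_right ?_ (Real.rpow_nonneg (Nat.cast_nonneg d) _)
  exact le_mul_of_one_le_right hK (one_le_logsq (h0 d hd).1)

/-- **PHASE for the system of the flexible edges.** -/
theorem core (hP : Stmt_PHASE.{u}) (hF : Stmt_FSY.{u}) (g m M : ℕ) (hg : 2 ≤ g) :
    ∃ Cm : ℝ, 0 < Cm ∧ ∀ (C σ1 c A : ℝ), 1 ≤ C → 0 < σ1 → 0 < c → c ≤ 1 / 100 → 3 ≤ A →
    ∃ d0 : ℕ, ∀ {W B τ τ' : Type u} [Fintype W] [Fintype B] [Fintype τ] [Fintype τ']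
      (X : Dat W B) (Ty : Kd → Prop) (gr : W → Fin 3) (σ : ℝ) (off : Fin g → W → ℝ)
      (u : Fin m → (W → Fin g) → W → ℝ) (U : Fin m → B → ℝ)
      (α : τ → W → ℝ) (γ : τ' → W → W → ℝ) (cnt : B → Fin g → ℕ), d0 ≤ X.d → σ1 ≤ σ → σ ≤ 1 →
      Env X M C (1 / 64) (1 / 64) c → Grp X c gr →
      (Ty = (fun κ => κ = Kd.K) ∨ Ty = fun κ => κ ≠ Kd.K) →
      (∀ k x, |off k x| ≤ (X.d : ℝ) ^ (1 / 2 : ℝ)) →
      (∀ l L v b, X.bl v = some b → |u l L v| ≤ U l b) → (∀ l b, 0 ≤ U l b) →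
      (∀ l L L' v, (∀ v', X.ty Ty v' → gr v' < gr v → L v' = L' v') → u l L v = u l L' v) →
      Fam α X.d A → (∀ q v v', 0 ≤ γ q v v') →
      (∀ q v v', γ q v v' ≠ 0 → X.ty Ty v ∧ X.ty Ty v' ∧ gr v ≠ gr v') →
      (∀ q, ((univ.filter fun v => ∃ w, γ q v w ≠ 0 ∨ γ q w v ≠ 0).card : ℝ) ≤ (X.d : ℝ) ^ A) →
      (∀ v, ((univ.filter fun q => ∃ w, γ q v w ≠ 0 ∨ γ q w v ≠ 0).card : ℝ) ≤ (X.d : ℝ) ^ A) →
      (∀ b, Ty (X.kd b) → ∑ k, cnt b k = (blk X.bl b).card) →
      (∀ b k, Ty (X.kd b) → |(cnt b k : ℝ) - ((blk X.bl b).card : ℝ) / g| ≤ 3) →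
      ∃ (L : W → Fin g) (w' : Fin g → Sym2 W → ℝ),
        (∀ k v y, X.fl Ty gr c v y →
          |w' k s(v, y) - X.bas Ty σ s(v, y) * (X.mv Ty L k v * X.mv Ty L k y)| ≤
          (X.d : ℝ) ^ (-(c / 25)) * (X.bas Ty σ s(v, y) * (X.mv Ty L k v * X.mv Ty L k y))) ∧
        (∀ k x, X.bl x = none → (X.d : ℝ) ^ (c / 4) ≤ ((X.sc c x).card : ℝ) →
          |∑ v ∈ X.sc c x, w' k s(v, x) - (σ * ((X.sc c x).card : ℝ) +
            if X.h3 c x then off k x else 0)| ≤ (X.d : ℝ) ^ (-(c / 20))) ∧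
        (∀ k b, X.kd b = Kd.S → |∑ v ∈ blk X.bl b, ∑ y with X.fl Ty gr c v y,
          (w' k s(v, y) - X.w0 Ty c σ off k s(v, y))| ≤ (X.d : ℝ) ^ (1 - c / 2)) ∧
        (∀ q k, |∑ v with X.ty Ty v, α q v * (X.mv Ty L k v - 1)| ≤ Real.log X.d ^ 2 *
          (Real.sqrt (∑ v, α q v ^ 2) + (∑ v, |α q v|) / X.d)) ∧
        (∀ q k k', |∑ v, ∑ w, γ q v w * (X.mv Ty L k v * X.mv Ty L k' w - 1)| ≤
          Real.log X.d ^ 2 * (Real.sqrt (∑ v, (∑ w, (γ q v w + γ q w v)) ^ 2) +
            (∑ v, ∑ w, γ q v w) / X.d)) ∧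
        (∀ l b k, Ty (X.kd b) → |∑ v ∈ blk X.bl b, u l L v * (X.mv Ty L k v - 1)| ≤
          Cm * U l b) ∧
        ∀ b k, Ty (X.kd b) → ((blk X.bl b).filter fun v => L v = k).card = cnt b k := by
  obtain ⟨Cm, hCm, hP⟩ := hP g m hg
  refine ⟨3 * Cm, by positivity, fun C σ1 c A hC hσ1 hc hc1 hA => ?_⟩
  obtain ⟨d1, hP⟩ := hP A (C + 8) c 2 (σ1 / 40) (by linarith) (by linarith) hc (by linarith)
    two_pos (by positivity)
  obtain ⟨d2, hF⟩ := hF g M C σ1 c hg hC hσ1 hc hc1
  obtain ⟨d3, h3⟩ := asy0 4 (-(1 / 4)) 0 (by norm_num) (by norm_num)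
  obtain ⟨d4, h4⟩ := asy0 2 (-(1 / 4)) (-(c / 25)) (by norm_num) (by linarith)
  obtain ⟨d5, h5⟩ := asy0 2 (-(c / 20)) (-(c / 25)) (by norm_num) (by linarith)
  refine ⟨max d1 (max d2 (max d3 (max d4 d5))), ?_⟩
  intro W B τ τ' _ _ _ _ X Ty gr σ off u U α γ cnt hd hσ hσ' hE hG hTy hoff hu hU hadp hα hγ0 hγ1
    hγ2 hγ3 hc1' hc2'
  have hd1 : d1 ≤ X.d := le_trans (le_max_left _ _) hd
  have hd2 : d2 ≤ X.d := le_trans (le_trans (le_max_left _ _) (le_max_right _ _)) hd
  have hd3 : d3 ≤ X.d := le_trans (le_trans (le_max_left _ _) (le_trans (le_max_right _ _)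
    (le_max_right _ _))) hd
  have hd4 : d4 ≤ X.d := le_trans (le_trans (le_max_left _ _) (le_trans (le_max_right _ _)
    (le_trans (le_max_right _ _) (le_max_right _ _)))) hd
  have hd5 : d5 ≤ X.d := le_trans (le_trans (le_max_right _ _) (le_trans (le_max_right _ _)
    (le_trans (le_max_right _ _) (le_max_right _ _)))) hd
  have hX1 : (1 : ℝ) ≤ X.d := by exact_mod_cast le_trans (by norm_num) (h3 _ hd3).1
  have hX0 : (0 : ℝ) < X.d := by linarith
  have hph := hF X Ty gr σ off hd2 hσ hσ' hE hG hTy hoff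
  have hph' : PhH (X.sys Ty gr c) (X.par Ty gr c) g (univ.filter fun v => X.ty Ty v) gr X.si
      (fun _ => X.bas Ty σ) (fun k => X.w0 Ty c σ off k) X.d A (C + 8) c 2 (σ1 / 40)
      ((X.d : ℝ) ^ (-(1 / 4) : ℝ)) :=
    { hph with DA := fun p => (hph.DA p).trans (Real.rpow_le_rpow_of_exponent_le hX1 hA) }
  have hsi : ∀ v b, X.si v = Sum.inr b ↔ X.bl v = some b := by
    intro v b
    unfold Dat.si
    constructor
    · intro h
      cases h' : X.bl v with
      | none => rw [h'] at h; exact absurd h (by simp)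
      | some b' => rw [h'] at h; rw [Sum.inr.inj h]
    · intro h
      rw [h]
  have hsi' : ∀ v x, X.si v = Sum.inl x → X.bl v = none := by
    intro v x h
    unfold Dat.si at h
    cases h' : X.bl v with
    | none => rfl
    | some b' => rw [h'] at h; exact absurd h (by simp)
  have hT1 : ∀ b, Ty (X.kd b) → ∀ inst : DecidablePred fun v => X.si v = Sum.inr b,
      @Finset.filter W (fun v => X.si v = Sum.inr b) inst (univ.filter fun v => X.ty Ty v) =
      blk X.bl b := by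
    intro b hb inst
    ext v
    rw [mem_filter, mem_filter, mem_blk, hsi]
    exact ⟨fun h => h.2, fun h => ⟨⟨mem_univ _, b, h, hb⟩, h⟩⟩
  have hT2 : ∀ b, ¬ Ty (X.kd b) → ∀ inst : DecidablePred fun v => X.si v = Sum.inr b,
      @Finset.filter W (fun v => X.si v = Sum.inr b) inst (univ.filter fun v => X.ty Ty v) =
      ∅ := by
    intro b hb inst
    rw [filter_eq_empty_iff]
    intro v hv h
    exact hb ((ty_iff ((hsi v b).1 h)).1 (mem_filter.1 hv).2)
  have hT3 : ∀ x, ∀ inst : DecidablePred fun v => X.si v = Sum.inl x,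
      @Finset.filter W (fun v => X.si v = Sum.inl x) inst (univ.filter fun v => X.ty Ty v) =
      ∅ := by
    intro x inst
    rw [filter_eq_empty_iff]
    intro v hv h
    exact not_ty (hsi' v x h) (mem_filter.1 hv).2
  set u' : Fin m → (W → Fin g) → W → ℝ := fun l L v => if X.bl v = none then 0 else u l L v
    with hu'
  set U' : Fin m → W ⊕ B → ℝ := fun l => Sum.elim (fun _ => 0) (fun b => U l b) with hU'
  set cnt' : W ⊕ B → Fin g → ℕ := Sum.elim (fun _ _ => 0)
    (fun b k => if Ty (X.kd b) then cnt b k else 0) with hcnt'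
  obtain ⟨L, w', P1, P2, P3, P4, P5, P6, P7⟩ := hP (X.sys Ty gr c) (X.par Ty gr c)
    (univ.filter fun v => X.ty Ty v) gr X.si (fun _ => X.bas Ty σ)
    (fun k => X.w0 Ty c σ off k) X.d ((X.d : ℝ) ^ (-(1 / 4) : ℝ)) u' U' α γ cnt' hd1
    (Real.rpow_nonneg hX0.le _)
    (by have := (h3 _ hd3).2; rw [Real.rpow_zero] at this; linarith) hph'
    (fun l L v => by
      show |if X.bl v = none then 0 else u l L v| ≤ U' l (X.si v)
      cases h' : X.bl v with
      | none =>
        rw [if_pos rfl, abs_zero]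
        unfold Dat.si
        rw [h']
        exact le_rfl
      | some b =>
        rw [if_neg (by simp)]
        unfold Dat.si
        rw [h']
        exact hu l L v b h')
    (fun l i => by
      rcases i with x | b
      · exact le_rfl
      · exact hU l b)
    (fun l L L' v h => by
      show (if X.bl v = none then 0 else u l L v) = if X.bl v = none then 0 else u l L' v
      rw [hadp l L L' v fun v' hv' => h v' (mem_filter.2 ⟨mem_univ _, hv'⟩)])
    hα.sp hα.mu hγ0 (fun q v v' h => by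
      obtain ⟨h1, h2, h3⟩ := hγ1 q v v' h
      exact ⟨mem_filter.2 ⟨mem_univ _, h1⟩, mem_filter.2 ⟨mem_univ _, h2⟩, h3⟩) hγ2 hγ3
    (fun i => by
      rcases i with x | b
      · rw [hT3]
        simp [hcnt']
      · by_cases hb : Ty (X.kd b)
        · rw [hT1 b hb, ← hc1' b hb]
          exact sum_congr rfl fun k _ => if_pos hb
        · rw [hT2 b hb]
          simp [hcnt', hb])
    (fun i k => by
      rcases i with x | b
      · rw [hT3]
        simp [hcnt']
      · by_cases hb : Ty (X.kd b)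
        · rw [hT1 b hb]
          have : cnt' (Sum.inr b) k = cnt b k := if_pos hb
          rw [this]
          exact hc2' b k hb
        · rw [hT2 b hb]
          simp [hcnt', hb])
  refine ⟨L, w', fun k v y hvy => ?_, fun k x hx hxc => ?_, fun k b hb => ?_, fun q k => ?_,
    P5, fun l b k hb => ?_, fun b k hb => ?_⟩
  · have h1 := P1 k s(v, y)
    have h2 : Pool.Agent.Work.MP_db9399_ts.bas (X.sys Ty gr c) g
        (univ.filter fun v => X.ty Ty v) L (fun _ => X.bas Ty σ) k s(v, y) =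
        X.bas Ty σ s(v, y) * (X.mv Ty L k v * X.mv Ty L k y) := by
      unfold Pool.Agent.Work.MP_db9399_ts.bas
      rw [prod_ends L k hvy]
    rw [h2] at h1
    refine h1.trans (mul_le_mul_of_nonneg_right ?_ ?_)
    · have h6 := (h4 _ hd4).2
      have h7 := (h5 _ hd5).2
      linarith
    · have h8 : ∀ v, 0 ≤ X.mv Ty L k v := by
        intro v
        unfold Dat.mv mu
        have h2 : (2 : ℝ) ≤ g := by exact_mod_cast hg
        split_ifs
        · exact le_rfl
        · exact div_nonneg (by linarith) (by linarith)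
        · exact zero_le_one
      exact mul_nonneg (hph.b0 k s(v, y)).1 (mul_nonneg (h8 v) (h8 y))
  · have h1 := P2 k (Sum.inl x) (by
      rintro ⟨q, hq⟩
      exact absurd hq (by show Sum.inl x ≠ Sum.inr q; simp))
    rw [sum_hub (fun e => w' k e - X.w0 Ty c σ off k e) hx hxc] at h1
    rw [sum_sub_distrib] at h1
    have h2 : ∑ v ∈ X.sc c x, X.w0 Ty c σ off k s(v, x) =
        σ * ((X.sc c x).card : ℝ) + if X.h3 c x then off k x else 0 := by
      rw [sum_congr rfl fun v hv => w0_hub (ne_of_gt (lt_of_lt_of_le hσ1 hσ)) k hv hx, sum_const,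
        nsmul_eq_mul, mul_add, mul_comm]
      congr 1
      split_ifs
      · have h6 : 0 < ((X.sc c x).card : ℝ) :=
          lt_of_lt_of_le (Real.rpow_pos_of_pos hX0 _) hxc
        rw [mul_div_cancel₀ _ (ne_of_gt h6)]
      · rw [mul_zero]
    rw [h2] at h1
    exact h1
  · have h1 := P3 k b
    rw [sum_row (fun e => w' k e - X.w0 Ty c σ off k e) hb] at h1
    exact h1
  · refine (P4 q k).trans (mul_le_mul_of_nonneg_left (add_le_add (Real.sqrt_le_sqrt ?_)
      (div_le_div_of_nonneg_right ?_ hX0.le)) (sq_nonneg _))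
    · exact sum_le_sum_of_subset_of_nonneg (filter_subset _ _) fun _ _ _ => sq_nonneg _
    · exact sum_le_sum_of_subset_of_nonneg (filter_subset _ _) fun _ _ _ => abs_nonneg _
  · have h1 : ∀ ρ : Fin 3, |∑ v ∈ (blk X.bl b).filter (fun v => gr v = ρ),
        u l L v * (X.mv Ty L k v - 1)| ≤ Cm * U l b := by
      intro ρ
      refine le_trans (le_of_eq ?_) (P6 l (Sum.inr b) k ρ)
      congr 1
      refine sum_congr ?_ fun v hv => ?_
      · ext v
        simp only [mem_filter, mem_blk, hsi]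
        exact ⟨fun h => ⟨⟨mem_univ _, b, h.1, hb⟩, h⟩, fun h => h.2⟩
      · have h3 : u' l L v = u l L v := by
          show (if X.bl v = none then 0 else u l L v) = u l L v
          rw [if_neg (by rw [(hsi v b).1 (mf.1 hv).2.1]; simp)]
        rw [h3]
        rfl
    rw [← sum_fiberwise (blk X.bl b) gr]
    refine (abs_sum_le_sum_abs _ _).trans ((sum_le_sum fun ρ _ => h1 ρ).trans (le_of_eq ?_))
    rw [sum_const, card_univ, Fintype.card_fin, nsmul_eq_mul]
    push_cast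
    ring
  · have h1 := P7 (Sum.inr b) k
    have h2 : cnt' (Sum.inr b) k = cnt b k := if_pos hb
    rw [h2] at h1
    rw [← h1]
    congr 1
    ext v
    simp only [mem_filter, mem_blk, hsi]
    exact ⟨fun h => ⟨⟨mem_univ _, b, h.1, hb⟩, h⟩, fun h => h.2⟩

end Basic

end Pool.Agent.Work.MP_db9399_ts.helper61
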