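import Pool.Agent.Work.MP_db9399_ts_helper61.FLBa

/-!
# MP_db9399, TSPLIT, block FLB, part 2: functionals for the blocks of a cluster (helper61)
-/

set_option autoImplicit false
set_option linter.unusedSectionVars false

namespace Pool.Agent.Work.MP_db9399_ts.helper61

open Finset Classical
open Pool.Agent.Work.MP_db9399_all (nb)
open Pool.Agent.Work.MP_db9399_clj.helper75 (OO blk nB eE)
open Pool.Agent.Work.MP_db9399_ts

universe u

/-- the functional of kind `t` for the block number `i` of the cluster -/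
noncomputable def fnl {W B : Type u} [Fintype B] (X : Dat W B) {g : ℕ} {TT : Type}
    (F : TT → (W → Fin g) → W → B → ℝ) (t : TT) (i : ℕ) (L : W → Fin g) (v : W) : ℝ :=
  ∑ b' with (∃ b, X.bl v = some b ∧ X.cb b' = X.cb b) ∧ X.ix b' = i, F t L v b'

theorem fnl_eq {W B : Type u} [Fintype W] [Fintype B] {X : Dat W B} {M : ℕ} {C ζ θ c : ℝ}
    (hE : Env X M C ζ θ c) {g : ℕ} {TT : Type} (F : TT → (W → Fin g) → W → B → ℝ) (t : TT)
    (L : W → Fin g) {v : W} {b b' : B} (hv : X.bl v = some b) (hb : X.cb b' = X.cb b) :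
    fnl X F t (X.ix b') L v = F t L v b' := by
  unfold fnl
  have h1 : (univ.filter fun b'' => (∃ b, X.bl v = some b ∧ X.cb b'' = X.cb b) ∧
      X.ix b'' = X.ix b') = {b'} := by
    ext b''
    rw [mem_filter, mem_singleton]
    constructor
    · rintro ⟨_, ⟨b1, h1, h2⟩, h3⟩
      rw [hv] at h1
      rw [← Option.some.inj h1, ← hb] at h2
      exact hE.ixi b'' b' h2 h3
    · rintro rfl
      exact ⟨mem_univ _, ⟨b, hv, hb⟩, rfl⟩
  rw [h1, sum_singleton]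

theorem fnl_abs {W B : Type u} [Fintype W] [Fintype B] {X : Dat W B} {M : ℕ} {C ζ θ c : ℝ}
    (hE : Env X M C ζ θ c) {g : ℕ} {TT : Type} (F : TT → (W → Fin g) → W → B → ℝ) (t : TT)
    {K : ℝ} (hK : 0 ≤ K) (h : ∀ L v b', X.bl v ≠ none → |F t L v b'| ≤ K) (i : ℕ)
    (L : W → Fin g) (v : W) (hv : X.bl v ≠ none) : |fnl X F t i L v| ≤ K := by
  by_cases h1 : ∃ b', (∃ b, X.bl v = some b ∧ X.cb b' = X.cb b) ∧ X.ix b' = i
  · obtain ⟨b', ⟨b, h2, h3⟩, h4⟩ := h1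
    rw [← h4, fnl_eq hE F t L h2 h3]
    exact h L v b' hv
  · unfold fnl
    rw [filter_eq_empty_iff.2 fun b' _ h2 => h1 ⟨b', h2⟩, sum_empty, abs_zero]
    exact hK

/-- **PHASE with functionals for the pairs of blocks of a cluster.** -/
theorem core2 (hP : Stmt_PHASE.{u}) (hF : Stmt_FSY.{u}) (g m M : ℕ) (TT : Type) [Fintype TT]
    (hg : 2 ≤ g) :
    ∃ Cm : ℝ, 0 < Cm ∧ ∀ (C σ1 c A : ℝ), 1 ≤ C → 0 < σ1 → 0 < c → c ≤ 1 / 100 → 3 ≤ A →
    ∃ d0 : ℕ, ∀ {W B τ τ' : Type u} [Fintype W] [Fintype B] [Fintype τ] [Fintype τ']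
      (X : Dat W B) (Ty : Kd → Prop) (gr : W → Fin 3) (σ : ℝ) (off : Fin g → W → ℝ)
      (u : Fin m → W → ℝ) (U : Fin m → B → ℝ) (F : TT → (W → Fin g) → W → B → ℝ) (K : ℝ)
      (α : τ → W → ℝ) (γ : τ' → W → W → ℝ) (cnt : B → Fin g → ℕ), d0 ≤ X.d → σ1 ≤ σ → σ ≤ 1 →
      Env X M C (1 / 64) (1 / 64) c → Grp X c gr →
      (Ty = (fun κ => κ = Kd.K) ∨ Ty = fun κ => κ ≠ Kd.K) →
      (∀ k x, |off k x| ≤ (X.d : ℝ) ^ (1 / 2 : ℝ)) →
      (∀ l v b, X.bl v = some b → |u l v| ≤ U l b) → (∀ l b, 0 ≤ U l b) → 0 ≤ K →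
      (∀ t L v b', X.bl v ≠ none → |F t L v b'| ≤ K) →
      (∀ t L L' v b', (∀ v', X.ty Ty v' → gr v' < gr v → L v' = L' v') →
        F t L v b' = F t L' v b') →
      Fam α X.d A → (∀ q v v', 0 ≤ γ q v v') →
      (∀ q v v', γ q v v' ≠ 0 → X.ty Ty v ∧ X.ty Ty v' ∧ gr v ≠ gr v') →
      (∀ q, ((univ.filter fun v => ∃ w, γ q v w ≠ 0 ∨ γ q w v ≠ 0).card : ℝ) ≤ (X.d : ℝ) ^ A) →
      (∀ v, ((univ.filter fun q => ∃ w, γ q v w ≠ 0 ∨ γ q w v ≠ 0).card : ℝ) ≤ (X.d : ℝ) ^ A) →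
      (∀ b, Ty (X.kd b) → ∑ k, cnt b k = (blk X.bl b).card) →
      (∀ b k, Ty (X.kd b) → |(cnt b k : ℝ) - ((blk X.bl b).card : ℝ) / g| ≤ 3) →
      ∃ (L : W → Fin g) (w' : Fin g → Sym2 W → ℝ),
        (∀ k v y, X.fl Ty gr c v y →
          |w' k s(v, y) - X.bas Ty σ s(v, y) * (X.mv Ty L k v * X.mv Ty L k y)| ≤
          (X.d : ℝ) ^ (-(c / 25)) * (X.bas Ty σ s(v, y) * (X.mv Ty L k v * X.mv Ty L k y))) ∧
        (∀ k x, X.bl x = none → (X.d : ℝ) ^ (c / 4) ≤ ((X.sc c x).card : ℝ) →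
          |∑ v ∈ X.sc c x, w' k s(v, x) - (σ * ((X.sc c x).card : ℝ) +
            if X.h3 c x then off k x else 0)| ≤ (X.d : ℝ) ^ (-(c / 20))) ∧
        (∀ k b, X.kd b = Kd.S → |∑ v ∈ blk X.bl b, ∑ y with X.fl Ty gr c v y,
          (w' k s(v, y) - X.w0 Ty c σ off k s(v, y))| ≤ (X.d : ℝ) ^ (1 - c / 2)) ∧
        (∀ q k, |∑ v with X.ty Ty v, α q v * (X.mv Ty L k v - 1)| ≤ Real.log X.d ^ 2 *
          (Real.sqrt (∑ v, α q v ^ 2) + (∑ v, |α q v|) / X.d)) ∧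
        (∀ q k k', |∑ v, ∑ w, γ q v w * (X.mv Ty L k v * X.mv Ty L k' w - 1)| ≤
          Real.log X.d ^ 2 * (Real.sqrt (∑ v, (∑ w, (γ q v w + γ q w v)) ^ 2) +
            (∑ v, ∑ w, γ q v w) / X.d)) ∧
        (∀ l b k, Ty (X.kd b) → |∑ v ∈ blk X.bl b, u l v * (X.mv Ty L k v - 1)| ≤
          Cm * U l b) ∧
        (∀ t b b' k, Ty (X.kd b) → X.cb b' = X.cb b →
          |∑ v ∈ blk X.bl b, F t L v b' * (X.mv Ty L k v - 1)| ≤ Cm * K) ∧
        ∀ b k, Ty (X.kd b) → ((blk X.bl b).filter fun v => L v = k).card = cnt b k := by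
  set eq := Fintype.equivFin (Fin m ⊕ (TT × Fin M)) with heq
  obtain ⟨Cm, hCm, h⟩ := core hP hF g (Fintype.card (Fin m ⊕ (TT × Fin M))) M hg
  refine ⟨Cm, hCm, fun C σ1 c A hC hσ1 hc hc1 hA => ?_⟩
  obtain ⟨d0, h⟩ := h C σ1 c A hC hσ1 hc hc1 hA
  refine ⟨d0, ?_⟩
  intro W B τ τ' _ _ _ _ X Ty gr σ off u U F K α γ cnt hd hσ hσ' hE hG hTy hoff hu hU hK hFK
    hadp hα hγ0 hγ1 hγ2 hγ3 hc1' hc2'
  set u' : Fin (Fintype.card (Fin m ⊕ (TT × Fin M))) → (W → Fin g) → W → ℝ := fun l L v =>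
    if X.bl v = none then 0 else
    Sum.elim (fun l => u l v) (fun p => fnl X F p.1 (p.2 : ℕ) L v) (eq.symm l) with hu'
  set U' : Fin (Fintype.card (Fin m ⊕ (TT × Fin M))) → B → ℝ := fun l b =>
    Sum.elim (fun l => U l b) (fun _ => K) (eq.symm l) with hU'
  obtain ⟨L, w', h1, h2, h3, h4, h5, h6, h7⟩ := h X Ty gr σ off u' U' α γ cnt hd hσ hσ' hE hG hTy
    hoff (fun l L v b hv => by
      show |if X.bl v = none then 0 else
        Sum.elim (fun l => u l v) (fun p => fnl X F p.1 (p.2 : ℕ) L v) (eq.symm l)| ≤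
        Sum.elim (fun l => U l b) (fun _ => K) (eq.symm l)
      have hv' : X.bl v ≠ none := by rw [hv]; simp
      rw [if_neg hv']
      rcases eq.symm l with l' | p
      · exact hu l' v b hv
      · exact fnl_abs hE F p.1 hK (fun L v b' => hFK p.1 L v b') _ L v hv')
    (fun l b => by
      show 0 ≤ Sum.elim (fun l => U l b) (fun _ => K) (eq.symm l)
      rcases eq.symm l with l' | p
      · exact hU l' b
      · exact hK)
    (fun l L L' v hL => by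
      show (if X.bl v = none then 0 else
        Sum.elim (fun l => u l v) (fun p => fnl X F p.1 (p.2 : ℕ) L v) (eq.symm l)) =
        if X.bl v = none then 0 else
        Sum.elim (fun l => u l v) (fun p => fnl X F p.1 (p.2 : ℕ) L' v) (eq.symm l)
      split_ifs
      · rfl
      · rcases eq.symm l with l' | p
        · rfl
        · exact sum_congr rfl fun b' _ => hadp p.1 L L' v b' hL)
    hα hγ0 hγ1 hγ2 hγ3 hc1' hc2'
  have hbl : ∀ b v, v ∈ blk X.bl b → ¬ X.bl v = none := by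
    intro b v hv
    rw [mem_blk.1 hv]
    simp
  refine ⟨L, w', h1, h2, h3, h4, h5, fun l b k hb => ?_, fun t b b' k hb hbb => ?_, h7⟩
  · have h8 := h6 (eq (Sum.inl l)) b k hb
    have h9 : U' (eq (Sum.inl l)) b = U l b := by
      show Sum.elim (fun l => U l b) (fun _ => K) (eq.symm (eq (Sum.inl l))) = _
      rw [Equiv.symm_apply_apply]
      rfl
    rw [h9] at h8
    refine le_trans (le_of_eq ?_) h8
    congr 1
    refine sum_congr rfl fun v hv => ?_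
    show _ = (if X.bl v = none then 0 else
        Sum.elim (fun l => u l v) (fun p => fnl X F p.1 (p.2 : ℕ) L v)
          (eq.symm (eq (Sum.inl l)))) * _
    rw [if_neg (hbl b v hv), Equiv.symm_apply_apply]
    rfl
  · have h8 := h6 (eq (Sum.inr (t, ⟨X.ix b', hE.ixM b'⟩))) b k hb
    have h9 : U' (eq (Sum.inr (t, ⟨X.ix b', hE.ixM b'⟩))) b = K := by
      show Sum.elim (fun l => U l b) (fun _ => K)
        (eq.symm (eq (Sum.inr (t, ⟨X.ix b', hE.ixM b'⟩)))) = _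
      rw [Equiv.symm_apply_apply]
      rfl
    rw [h9] at h8
    refine le_trans (le_of_eq ?_) h8
    congr 1
    refine sum_congr rfl fun v hv => ?_
    show _ = (if X.bl v = none then 0 else
        Sum.elim (fun l => u l v) (fun p => fnl X F p.1 (p.2 : ℕ) L v)
          (eq.symm (eq (Sum.inr (t, ⟨X.ix b', hE.ixM b'⟩))))) * _
    rw [if_neg (hbl b v hv), Equiv.symm_apply_apply]
    show _ = fnl X F t (X.ix b') L v * _
    rw [fnl_eq hE F t L (mem_blk.1 hv) hbb]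

end Pool.Agent.Work.MP_db9399_ts.helper61
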