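import Pool.Agent.Work.MP_db9399_ts_helper61.FLBb

/-!
# MP_db9399, TSPLIT, block FLB, part 3: counting (helper61)
-/

set_option autoImplicit false
set_option linter.unusedSectionVars false

namespace Pool.Agent.Work.MP_db9399_ts.helper61

open Finset Classical
open Pool.Agent.Work.MP_db9399_all (nb)
open Pool.Agent.Work.MP_db9399_clj.helper75 (OO blk nB eE)
open Pool.Agent.Work.MP_db9399_ts

universe u

variable {W B : Type u} [Fintype W] [Fintype B] {X : Dat W B} {M : ℕ} {C ζ θ c : ℝ}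

theorem nf_mem {x v : W} : v ∈ X.nf c x ↔
    X.G.Adj x v ∧ (∃ b, X.bl v = some b ∧ ¬ X.fat c x b) ∧ ¬ X.flH c v x := by
  unfold Dat.nf
  rw [mem_filter, mem_nb]

theorem sc_mem {x v : W} : v ∈ X.sc c x ↔
    X.G.Adj x v ∧ ∃ b, X.bl v = some b ∧ ¬ X.fat c x b ∧ X.cq x ≠ X.cq v := by
  unfold Dat.sc
  rw [mem_filter, mem_nb]

theorem nf_light {x v : W} (h : v ∈ X.nf c x) : X.bl v ≠ none := by
  obtain ⟨_, ⟨b, hb, _⟩, _⟩ := nf_mem.1 h
  rw [hb]
  simp

/-- the outer part of `nf` is small -/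
theorem nf_out {x : W} (hx : X.bl x = none) :
    (((X.nf c x).filter fun v => X.cq x ≠ X.cq v).card : ℝ) ≤ (X.d : ℝ) ^ (c / 4) := by
  by_cases h : (X.d : ℝ) ^ (c / 4) ≤ ((X.sc c x).card : ℝ)
  · rw [filter_eq_empty_iff.2, card_empty]
    · exact_mod_cast Real.rpow_nonneg (Nat.cast_nonneg _) _
    · intro v hv hq
      obtain ⟨h1, ⟨b, hb, hf⟩, h2⟩ := nf_mem.1 hv
      exact h2 ⟨hx, sc_mem.2 ⟨h1, b, hb, hf, hq⟩, h⟩
  · refine le_trans ?_ (not_le.1 h).le
    have : ((X.nf c x).filter fun v => X.cq x ≠ X.cq v) ⊆ X.sc c x := by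
      intro v hv
      obtain ⟨h1, ⟨b, hb, hf⟩, h2⟩ := nf_mem.1 (mem_filter.1 hv).1
      exact sc_mem.2 ⟨h1, b, hb, hf, (mem_filter.1 hv).2⟩
    exact_mod_cast card_le_card this

/-- the own part of `nf` is small -/
theorem nf_in (hE : Env X M C ζ θ c) (x : W) :
    (((X.nf c x).filter fun v => X.cq x = X.cq v).card : ℝ) ≤ M * (X.d : ℝ) ^ (c / 16) := by
  set s := (X.nf c x).filter fun v => X.cq x = X.cq v with hs
  have h1 : ∀ o ∈ s.image X.bl, (s.filter fun v => X.bl v = o).card ≤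
      ⌊(X.d : ℝ) ^ (c / 16)⌋₊ := by
    intro o ho
    obtain ⟨v, hv, rfl⟩ := mem_image.1 ho
    obtain ⟨_, ⟨b, hb, hf⟩, _⟩ := nf_mem.1 (mem_filter.1 hv).1
    refine Nat.le_floor ?_
    refine le_trans ?_ (not_le.1 hf).le
    have : (s.filter fun v' => X.bl v' = X.bl v) ⊆ nb X.G x ∩ blk X.bl b := by
      intro w hw
      rw [mem_inter, mem_nb, mem_blk]
      exact ⟨(nf_mem.1 (mem_filter.1 (mem_filter.1 hw).1).1).1, by
        rw [(mem_filter.1 hw).2, hb]⟩
    unfold Dat.n nB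
    exact_mod_cast card_le_card this
  have h2 := card_le_mul_card_image s _ h1
  have h3 : (s.image X.bl).card ≤ M := by
    rw [← card_range M]
    refine card_le_card_of_injOn (fun o => match o with
      | none => 0
      | some b => X.ix b) (fun o ho => ?_) (fun o ho o' ho' h => ?_)
    · obtain ⟨v, hv, rfl⟩ := mem_image.1 ho
      obtain ⟨_, ⟨b, hb, hf⟩, _⟩ := nf_mem.1 (mem_filter.1 hv).1
      rw [hb]
      exact mem_coe.2 (mem_range.2 (hE.ixM b))
    · obtain ⟨v, hv, rfl⟩ := mem_image.1 ho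
      obtain ⟨_, ⟨b, hb, hf⟩, _⟩ := nf_mem.1 (mem_filter.1 hv).1
      obtain ⟨v', hv', rfl⟩ := mem_image.1 ho'
      obtain ⟨_, ⟨b', hb', hf'⟩, _⟩ := nf_mem.1 (mem_filter.1 hv').1
      rw [hb, hb'] at h ⊢
      have h4 : some (X.cb b) = some (X.cb b') := by
        rw [← hE.cl v b hb, ← hE.cl v' b' hb', ← (mem_filter.1 hv).2, (mem_filter.1 hv').2]
      rw [hE.ixi b b' (Option.some.inj h4) h]
  calc (s.card : ℝ) ≤ (⌊(X.d : ℝ) ^ (c / 16)⌋₊ : ℝ) * ((s.image X.bl).card : ℝ) := by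
        exact_mod_cast h2
    _ ≤ (X.d : ℝ) ^ (c / 16) * M := mul_le_mul
        (Nat.floor_le (Real.rpow_nonneg (Nat.cast_nonneg _) _)) (by exact_mod_cast h3)
        (Nat.cast_nonneg _) (Real.rpow_nonneg (Nat.cast_nonneg _) _)
    _ = _ := mul_comm _ _

theorem nf_card (hE : Env X M C ζ θ c) {x : W} (hx : X.bl x = none) :
    ((X.nf c x).card : ℝ) ≤ M * (X.d : ℝ) ^ (c / 16) + (X.d : ℝ) ^ (c / 4) := by
  have h1 := nf_out (c := c) hx
  have h2 := nf_in hE x
  have h3 := card_filter_add_card_filter_not (s := X.nf c x) (fun v => X.cq x = X.cq v)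
  have h4 : ((X.nf c x).card : ℝ) = (((X.nf c x).filter fun v => X.cq x = X.cq v).card : ℝ) +
      (((X.nf c x).filter fun v => X.cq x ≠ X.cq v).card : ℝ) := by exact_mod_cast h3.symm
  linarith

theorem th_adj {v w : W} : X.Th.Adj v w ↔ X.G.Adj v w ∧ ¬ X.Bk.Adj v w :=
  SimpleGraph.sdiff_adj _ _ _ _

theorem th_O (hE : Env X M C ζ θ c) {v x : W} (hx : X.bl x = none) (h : X.G.Adj v x) :
    X.Th.Adj v x := by
  refine th_adj.2 ⟨h, fun h' => ?_⟩
  obtain ⟨b, _, hb⟩ := hE.bk v x h'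
  rw [hx] at hb
  exact absurd hb (by simp)

theorem cntO (hE : Env X M C ζ θ c) {v : W} (hv : X.bl v ≠ none) :
    ((univ.filter fun x => X.bl x = none ∧ X.G.Adj x v).card : ℝ) ≤ ζ * X.d := by
  refine le_trans ?_ (hE.thn v hv)
  unfold Dat.td
  have : (univ.filter fun x => X.bl x = none ∧ X.G.Adj x v) ⊆ nb X.Th v := by
    intro x hx
    exact mem_nb.2 (th_O hE (mem_filter.1 hx).2.1 (mem_filter.1 hx).2.2.symm)
  exact_mod_cast card_le_card this

theorem cntQ (hE : Env X M C ζ θ c) {v : W} (hv : X.bl v ≠ none) :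
    ((univ.filter fun x => X.cq x ≠ X.cq v ∧ X.G.Adj x v).card : ℝ) ≤
      (X.d : ℝ) ^ (1 - c) := by
  refine le_trans ?_ (hE.out v hv)
  have : (univ.filter fun x => X.cq x ≠ X.cq v ∧ X.G.Adj x v) ⊆
      (nb X.G v).filter fun w => X.cq w ≠ X.cq v := by
    intro x hx
    exact mem_filter.2 ⟨mem_nb.2 (mem_filter.1 hx).2.2.symm, (mem_filter.1 hx).2.1⟩
  exact_mod_cast card_le_card this

theorem n_nonneg (x : W) (b : B) : 0 ≤ X.n x b := Nat.cast_nonneg _

theorem fx_ge {x : W} {b : B} (h : X.pb c x b) : X.n x b ≤ X.fx c x :=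
  single_le_sum (f := fun b => X.n x b) (fun b _ => n_nonneg x b)
    (mem_filter.2 ⟨mem_univ _, h⟩)

theorem fx_nonneg (x : W) : 0 ≤ X.fx c x := sum_nonneg fun b _ => n_nonneg x b

theorem nfx_le_one {x : W} {b : B} (h : X.pb c x b) : X.n x b / X.fx c x ≤ 1 :=
  div_le_one_of_le₀ (fx_ge h) (fx_nonneg x)

theorem nfx_nonneg (x : W) (b : B) : 0 ≤ X.n x b / X.fx c x :=
  div_nonneg (n_nonneg x b) (fx_nonneg x)

/-- the edges between `O` and a block -/
theorem sum_nO (hE : Env X M C ζ θ c) (hζ : 0 ≤ ζ) (b : B) :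
    ∑ x with X.bl x = none, X.n x b ≤ C * ζ * X.d ^ 2 := by
  have h1 : ∑ x with X.bl x = none, X.n x b = eE X.G (blk X.bl b) (OO X.bl) := by
    rw [eE_comm]
    rfl
  rw [h1]
  unfold eE
  have h2 : ∀ v ∈ blk X.bl b, ((nb X.G v ∩ OO X.bl).card : ℝ) ≤ ζ * X.d := by
    intro v hv
    have hv' : X.bl v ≠ none := by rw [mem_blk.1 hv]; simp
    refine le_trans ?_ (cntO hE hv')
    have : nb X.G v ∩ OO X.bl ⊆ univ.filter fun x => X.bl x = none ∧ X.G.Adj x v := by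
      intro x hx
      rw [mem_inter, mem_nb] at hx
      exact mem_filter.2 ⟨mem_univ _, (mem_filter.1 hx.2).2, hx.1.symm⟩
    exact_mod_cast card_le_card this
  refine (sum_le_sum h2).trans ?_
  rw [sum_const, nsmul_eq_mul]
  calc ((blk X.bl b).card : ℝ) * (ζ * X.d) ≤ (C * X.d) * (ζ * X.d) :=
        mul_le_mul_of_nonneg_right (hE.sz b).2 (by positivity)
    _ = _ := by ring

/-! ### the blocks of a cluster -/

theorem clus (hE : Env X M C ζ θ c) {Ty : Kd → Prop} (q : ℕ) (f : W → ℝ) {K : ℝ}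
    (hK : 0 ≤ K) (h0 : ∀ v, f v ≠ 0 → X.ty Ty v ∧ X.cq v = some q)
    (h : ∀ b, X.cb b = q → Ty (X.kd b) → |∑ v ∈ blk X.bl b, f v| ≤ K) :
    |∑ v, f v| ≤ M * K := by
  have h1 : ∑ v, f v = ∑ b with X.cb b = q ∧ Ty (X.kd b), ∑ v ∈ blk X.bl b, f v := by
    have h2 : ∀ b, ∑ v ∈ blk X.bl b, f v = ∑ v, if X.bl v = some b then f v else 0 := by
      intro b
      unfold blk
      rw [sum_filter]
    rw [sum_congr rfl fun b _ => h2 b, sum_comm]
    refine sum_congr rfl fun v _ => ?_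
    by_cases hf : f v = 0
    · rw [hf]
      simp
    · obtain ⟨⟨b, hb, hT⟩, hq⟩ := h0 v hf
      have hqb : X.cb b = q := by
        have := hE.cl v b hb
        rw [hq] at this
        exact (Option.some.inj this).symm
      rw [sum_eq_single b]
      · rw [if_pos hb]
      · intro b' _ hne
        rw [if_neg]
        rw [hb]
        exact fun h => hne (Option.some.inj h).symm
      · intro h
        exact absurd (mem_filter.2 ⟨mem_univ _, hqb, hT⟩) h
  rw [h1]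
  refine (abs_sum_le_sum_abs _ _).trans ((sum_le_sum fun b hb =>
    h b (mem_filter.1 hb).2.1 (mem_filter.1 hb).2.2).trans ?_)
  rw [sum_const, nsmul_eq_mul]
  refine mul_le_mul_of_nonneg_right ?_ hK
  have : (univ.filter fun b => X.cb b = q ∧ Ty (X.kd b)).card ≤ M := by
    rw [← card_range M]
    refine card_le_card_of_injOn X.ix (fun b _ => mem_coe.2 (mem_range.2 (hE.ixM b)))
      (fun b hb b' hb' h => ?_)
    have h1 := (mem_filter.1 hb).2.1
    have h2 := (mem_filter.1 hb').2.1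
    exact hE.ixi b b' (by rw [h1, h2]) h
  exact_mod_cast this

/-! ### factors -/

theorem mv_ty {Ty : Kd → Prop} {g : ℕ} {L : W → Fin g} {k : Fin g} {v : W} (h : X.ty Ty v) :
    X.mv Ty L k v = if L v = k then 0 else (g : ℝ) / (g - 1) := by
  unfold Dat.mv mu
  rw [if_pos (mem_filter.2 ⟨mem_univ _, h⟩)]

theorem ak_ty {Ty : Kd → Prop} {g : ℕ} {L : W → Fin g} {k : Fin g} {v : W} (h : X.ty Ty v) :
    X.ak Ty L k v ↔ L v ≠ k := ⟨fun h' => h' h, fun h' _ => h'⟩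

theorem gg_pos {g : ℕ} (hg : 2 ≤ g) : 0 < (g : ℝ) / (g - 1) ∧ (g : ℝ) / (g - 1) ≤ 2 ∧
    ((g : ℝ) - 1) / g ≤ 1 ∧ 0 ≤ ((g : ℝ) - 1) / g ∧ ((g : ℝ) - 1) / g * ((g : ℝ) / (g - 1)) = 1 := by
  have h2 : (2 : ℝ) ≤ g := by exact_mod_cast hg
  refine ⟨div_pos (by linarith) (by linarith), ?_, ?_, ?_, ?_⟩
  · rw [div_le_iff₀ (by linarith)]
    linarith
  · rw [div_le_one (by linarith)]
    linarith
  · exact div_nonneg (by linarith) (by linarith)
  · rw [div_mul_div_comm, mul_comm, div_self]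
    exact mul_ne_zero (by linarith) (fun h => by linarith)

/-- a weighted number of allowed vertices -/
theorem sum_mv {Ty : Kd → Prop} {g : ℕ} (L : W → Fin g) (k : Fin g) (S : Finset W) (f : W → ℝ)
    (h : ∀ v ∈ S, X.ty Ty v) : ∑ v ∈ S, f v * (X.mv Ty L k v - 1) =
      (g : ℝ) / (g - 1) * ∑ v ∈ S.filter (fun v => L v ≠ k), f v - ∑ v ∈ S, f v := by
  rw [sum_filter, mul_sum, ← sum_sub_distrib]
  refine sum_congr rfl fun v hv => ?_
  rw [mv_ty (h v hv)]
  by_cases hk : L v = k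
  · rw [if_pos hk, if_neg (not_not.2 hk)]
    ring
  · rw [if_neg hk, if_pos hk]
    ring

end Pool.Agent.Work.MP_db9399_ts.helper61
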