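import Pool.Agent.Work.MP_db9399_ts_helper61.FLBc

/-!
# MP_db9399, TSPLIT, block FLB, part 4: the families of tests (helper61)
-/

set_option autoImplicit false
set_option linter.unusedSectionVars false

namespace Pool.Agent.Work.MP_db9399_ts.helper61

open Finset Classical
open Pool.Agent.Work.MP_db9399_all (nb)
open Pool.Agent.Work.MP_db9399_clj.helper75 (OO blk nB eE)
open Pool.Agent.Work.MP_db9399_ts

universe u

variable {W B : Type u} [Fintype W] [Fintype B] {X : Dat W B} {M : ℕ} {C ζ θ c : ℝ}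

/-- test of the fat pair `(x, b)` -/
noncomputable def tf (X : Dat W B) (p : W × B) (v : W) : ℝ :=
  if X.bl p.1 = none ∧ X.G.Adj p.1 v ∧ X.bl v = some p.2 then 1 else 0

/-- test of the pair of blocks `(b, b')` -/
noncomputable def t1 (X : Dat W B) (p : B × B) (v : W) : ℝ :=
  if X.bl v = some p.1 ∧ X.cb p.1 ≠ X.cb p.2 then ((nb X.Th v ∩ blk X.bl p.2).card : ℝ) else 0

/-- what `v` does to the block `b` through the hubs -/
noncomputable def thr (X : Dat W B) (c : ℝ) (b : B) (v : W) : ℝ :=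
  ∑ x with (X.fr x ∧ ¬ X.h3 c x ∧ X.pb c x b) ∧ v ∈ X.nf c x, X.n x b / X.fx c x

/-- test of the block `b`, vertices outside the cluster -/
noncomputable def tO (X : Dat W B) (c : ℝ) (b : B) (v : W) : ℝ :=
  if X.cq v ≠ some (X.cb b) then thr X c b v else 0

/-- test of the noise at vertices of `O` -/
noncomputable def tn {τ : Type u} (X : Dat W B) (c : ℝ) (β : τ → W → ℝ) (q : τ) (v : W) : ℝ :=
  ∑ x with v ∈ X.nf c x, β q x

/-- bilinear test of the pair of blocks `(b, b')` -/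
noncomputable def g2 (X : Dat W B) (Ty : Kd → Prop) (gr : W → Fin 3) (p : B × B) (v w : W) : ℝ :=
  if (X.bl v = some p.1 ∧ X.bl w = some p.2) ∧ (X.Th.Adj v w ∧ gr v ≠ gr w) ∧
    Ty (X.kd p.1) ∧ Ty (X.kd p.2) ∧ X.cb p.1 ≠ X.cb p.2 then 1 else 0

theorem card_nb (hE : Env X M C ζ θ c) (v : W) : ((nb X.G v).card : ℝ) = X.d := by
  exact_mod_cast hE.reg v

theorem Fam.sum {τ τ' : Type u} [Fintype τ] [Fintype τ'] {a : τ → W → ℝ} {a' : τ' → W → ℝ}
    {d : ℕ} {A A' : ℝ} (h : Fam a d A) (h' : Fam a' d A) (hA : 2 * (d : ℝ) ^ A ≤ (d : ℝ) ^ A') :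
    Fam (Sum.elim a a') d A' := by
  have h0 : (0 : ℝ) ≤ (d : ℝ) ^ A := Real.rpow_nonneg (Nat.cast_nonneg _) _
  constructor
  · rintro (q | q)
    · exact (h.sp q).trans (by linarith)
    · exact (h'.sp q).trans (by linarith)
  · intro v
    have h1 : ((univ.filter fun q => Sum.elim a a' q v ≠ 0).card : ℝ) =
        ((univ.filter fun q => a q v ≠ 0).card : ℝ) +
        ((univ.filter fun q => a' q v ≠ 0).card : ℝ) := by
      have : (univ.filter fun q => Sum.elim a a' q v ≠ 0).card =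
        (univ.filter fun q => a q v ≠ 0).card + (univ.filter fun q => a' q v ≠ 0).card := by
        rw [card_filter, card_filter, card_filter, Fintype.sum_sum_type]
        rfl
      exact_mod_cast this
    rw [h1]
    linarith [h.mu v, h'.mu v]

theorem Fam.mono {τ : Type u} [Fintype τ] {a : τ → W → ℝ} {d : ℕ} {A A' : ℝ} (h : Fam a d A)
    (hA : (d : ℝ) ^ A ≤ (d : ℝ) ^ A') : Fam a d A' :=
  ⟨fun q => (h.sp q).trans hA, fun v => (h.mu v).trans hA⟩

theorem fam_f (hE : Env X M C ζ θ c) : Fam (tf X) X.d 1 := by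
  constructor
  · rintro ⟨x, b⟩
    rw [Real.rpow_one, ← card_nb hE x]
    have : (univ.filter fun v => tf X (x, b) v ≠ 0) ⊆ nb X.G x := by
      intro v hv
      have h := (mem_filter.1 hv).2
      unfold tf at h
      by_contra h'
      exact h (if_neg fun h2 => h' (mem_nb.2 h2.2.1))
    exact_mod_cast card_le_card this
  · intro v
    rw [Real.rpow_one, ← card_nb hE v]
    have h0 : ∀ p : W × B, tf X p v ≠ 0 → X.G.Adj p.1 v ∧ X.bl v = some p.2 := by
      intro p h
      by_contra h'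
      exact h (if_neg fun h2 => h' h2.2)
    have : (univ.filter fun p => tf X p v ≠ 0).card ≤ (nb X.G v).card := by
      refine card_le_card_of_injOn Prod.fst (fun p hp => ?_) (fun p hp p' hp' h => ?_)
      · exact mem_coe.2 (mem_nb.2 (h0 p (mem_filter.1 hp).2).1.symm)
      · have h1 := (h0 p (mem_filter.1 hp).2).2
        have h2 := (h0 p' (mem_filter.1 hp').2).2
        rw [h1] at h2
        exact Prod.ext h (Option.some.inj h2)
    exact_mod_cast this

theorem nbTh_sub (v : W) : nb X.Th v ⊆ nb X.G v := by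
  intro w hw
  exact mem_nb.2 (th_adj.1 (mem_nb.1 hw)).1

theorem fam_1 (hE : Env X M C ζ θ c) (hC : C ≤ X.d) (hd : 1 ≤ X.d) : Fam (t1 X) X.d 2 := by
  have hd' : (1 : ℝ) ≤ X.d := by exact_mod_cast hd
  constructor
  · rintro ⟨b, b'⟩
    rw [Real.rpow_two]
    have : (univ.filter fun v => t1 X (b, b') v ≠ 0) ⊆ blk X.bl b := by
      intro v hv
      have h := (mem_filter.1 hv).2
      unfold t1 at h
      by_contra h'
      exact h (if_neg fun h2 => h' (mem_blk.2 h2.1))
    calc ((univ.filter fun v => t1 X (b, b') v ≠ 0).card : ℝ) ≤ ((blk X.bl b).card : ℝ) := by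
          exact_mod_cast card_le_card this
      _ ≤ C * X.d := (hE.sz b).2
      _ ≤ X.d * X.d := mul_le_mul_of_nonneg_right hC (Nat.cast_nonneg _)
      _ = _ := by ring
  · intro v
    have h0 : ∀ p : B × B, t1 X p v ≠ 0 → X.bl v = some p.1 ∧
        ∃ w, X.G.Adj v w ∧ X.bl w = some p.2 := by
      intro p h
      have h1 : X.bl v = some p.1 := by
        by_contra h'
        exact h (if_neg fun h2 => h' h2.1)
      refine ⟨h1, ?_⟩
      by_contra h'
      refine h ?_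
      unfold t1
      split_ifs
      · rw [Nat.cast_eq_zero, card_eq_zero]
        refine eq_empty_of_forall_notMem fun w hw => h' ⟨w, ?_, ?_⟩
        · exact mem_nb.1 (nbTh_sub v (mem_inter.1 hw).1)
        · exact mem_blk.1 (mem_inter.1 hw).2
      · rfl
    have : (univ.filter fun p => t1 X p v ≠ 0).card ≤ ((nb X.G v).image X.bl).card := by
      refine card_le_card_of_injOn (fun p => some p.2) (fun p hp => ?_) (fun p hp p' hp' h => ?_)
      · obtain ⟨_, w, hw, hb⟩ := h0 p (mem_filter.1 hp).2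
        exact mem_coe.2 (mem_image.2 ⟨w, mem_nb.2 hw, hb⟩)
      · have h1 := (h0 p (mem_filter.1 hp).2).1
        have h2 := (h0 p' (mem_filter.1 hp').2).1
        rw [h1] at h2
        exact Prod.ext (Option.some.inj h2) (Option.some.inj h)
    have h2 : ((univ.filter fun p => t1 X p v ≠ 0).card : ℝ) ≤ ((nb X.G v).card : ℝ) := by
      exact_mod_cast this.trans card_image_le
    rw [card_nb hE] at h2
    refine h2.trans ?_
    rw [Real.rpow_two]
    nlinarith

/-- a hub which pushes on `b` has a neighbour in `b` -/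
theorem pb_nb (hd : 1 ≤ X.d) {x : W} {b : B} (h : X.pb c x b) :
    ∃ y, X.G.Adj x y ∧ X.bl y = some b := by
  have hd' : (0 : ℝ) < X.d := by exact_mod_cast hd
  have h1 : 0 < X.n x b := lt_of_lt_of_le (Real.rpow_pos_of_pos hd' _) h.1
  unfold Dat.n nB at h1
  have h2 : 0 < (nb X.G x ∩ blk X.bl b).card := by exact_mod_cast h1
  obtain ⟨y, hy⟩ := card_pos.1 h2
  exact ⟨y, mem_nb.1 (mem_inter.1 hy).1, mem_blk.1 (mem_inter.1 hy).2⟩

theorem tO_ne {b : B} {v : W} (hd : 1 ≤ X.d) (h : tO X c b v ≠ 0) :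
    ∃ x y, X.G.Adj v x ∧ X.G.Adj x y ∧ X.bl y = some b := by
  have h1 : thr X c b v ≠ 0 := by
    intro h'
    refine h ?_
    unfold tO
    rw [h', ite_self]
  unfold thr at h1
  obtain ⟨x, hx, _⟩ := exists_ne_zero_of_sum_ne_zero h1
  obtain ⟨⟨_, _, hp⟩, hn⟩ := (mem_filter.1 hx).2
  obtain ⟨y, hy, hb⟩ := pb_nb hd hp
  exact ⟨x, y, (nf_mem.1 hn).1.symm, hy, hb⟩

theorem fam_o (hE : Env X M C ζ θ c) (hC : C ≤ X.d) (hd : 1 ≤ X.d) : Fam (tO X c) X.d 4 := by
  have hd' : (1 : ℝ) ≤ X.d := by exact_mod_cast hd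
  have h4 : (X.d : ℝ) ^ (4 : ℝ) = (X.d : ℝ) ^ (4 : ℕ) := by
    rw [← Real.rpow_natCast]
    norm_num
  rw [show (4 : ℝ) = 4 from rfl]
  have hdd : ∀ v, (((nb X.G v).biUnion fun x => nb X.G x).card : ℝ) ≤ X.d * X.d := by
    intro v
    have h1 := card_biUnion_le_card_mul (nb X.G v) (fun x => nb X.G x) X.d
      (fun x _ => (hE.reg x).le)
    rw [hE.reg] at h1
    exact_mod_cast h1
  constructor
  · intro b
    rw [h4]
    have : (univ.filter fun v => tO X c b v ≠ 0) ⊆
        (blk X.bl b).biUnion fun y => (nb X.G y).biUnion fun x => nb X.G x := by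
      intro v hv
      obtain ⟨x, y, h1, h2, h3⟩ := tO_ne hd (mem_filter.1 hv).2
      exact mem_biUnion.2 ⟨y, mem_blk.2 h3, mem_biUnion.2 ⟨x, mem_nb.2 h2.symm,
        mem_nb.2 h1.symm⟩⟩
    calc ((univ.filter fun v => tO X c b v ≠ 0).card : ℝ)
        ≤ (((blk X.bl b).biUnion fun y => (nb X.G y).biUnion fun x => nb X.G x).card : ℝ) := by
          exact_mod_cast card_le_card this
      _ ≤ ((blk X.bl b).card * (X.d * X.d) : ℕ) := by
          have h5 := card_biUnion_le_card_mul (blk X.bl b)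
            (fun y => (nb X.G y).biUnion fun x => nb X.G x) (X.d * X.d)
            (fun y _ => by exact_mod_cast hdd y)
          exact_mod_cast h5
      _ = ((blk X.bl b).card : ℝ) * (X.d * X.d) := by push_cast; ring
      _ ≤ (C * X.d) * (X.d * X.d) := mul_le_mul_of_nonneg_right (hE.sz b).2 (by positivity)
      _ ≤ (X.d * X.d) * (X.d * X.d) := mul_le_mul_of_nonneg_right
          (mul_le_mul_of_nonneg_right hC (by positivity)) (by positivity)
      _ = _ := by ring
  · intro v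
    rw [h4]
    have : (univ.filter fun b => tO X c b v ≠ 0).card ≤
        (((nb X.G v).biUnion fun x => nb X.G x).image X.bl).card := by
      refine card_le_card_of_injOn some (fun b hb => ?_) (fun b _ b' _ h => Option.some.inj h)
      obtain ⟨x, y, h1, h2, h3⟩ := tO_ne hd (mem_filter.1 hb).2
      exact mem_coe.2 (mem_image.2 ⟨y, mem_biUnion.2 ⟨x, mem_nb.2 h1, mem_nb.2 h2⟩, h3⟩)
    calc ((univ.filter fun b => tO X c b v ≠ 0).card : ℝ)
        ≤ (((nb X.G v).biUnion fun x => nb X.G x).card : ℝ) := by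
          exact_mod_cast this.trans card_image_le
      _ ≤ X.d * X.d := hdd v
      _ ≤ (X.d * X.d) * (X.d * X.d) := by
          have h6 : (1 : ℝ) ≤ X.d * X.d := by nlinarith
          exact le_mul_of_one_le_right (by positivity) h6
      _ = _ := by ring

theorem fam_n {τ : Type u} [Fintype τ] (hE : Env X M C ζ θ c) (hd : 1 ≤ X.d) {β : τ → W → ℝ}
    {A : ℝ} (hβ : Fam β X.d A) : Fam (tn X c β) X.d (A + 1) := by
  have hd' : (0 : ℝ) < X.d := by exact_mod_cast hd
  have h0 : ∀ q v, tn X c β q v ≠ 0 → ∃ x, X.G.Adj v x ∧ β q x ≠ 0 := by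
    intro q v h
    unfold tn at h
    obtain ⟨x, hx, hx'⟩ := exists_ne_zero_of_sum_ne_zero h
    exact ⟨x, (nf_mem.1 (mem_filter.1 hx).2).1.symm, hx'⟩
  have h1 : (X.d : ℝ) ^ (A + 1) = (X.d : ℝ) ^ A * X.d := by
    rw [Real.rpow_add hd', Real.rpow_one]
  constructor
  · intro q
    rw [h1]
    have : (univ.filter fun v => tn X c β q v ≠ 0) ⊆
        (univ.filter fun x => β q x ≠ 0).biUnion fun x => nb X.G x := by
      intro v hv
      obtain ⟨x, h2, h3⟩ := h0 q v (mem_filter.1 hv).2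
      exact mem_biUnion.2 ⟨x, mem_filter.2 ⟨mem_univ _, h3⟩, mem_nb.2 h2.symm⟩
    have h5 := card_biUnion_le_card_mul (univ.filter fun x => β q x ≠ 0)
            (fun x => nb X.G x) X.d (fun x _ => (hE.reg x).le)
    calc ((univ.filter fun v => tn X c β q v ≠ 0).card : ℝ)
        ≤ (((univ.filter fun x => β q x ≠ 0).card * X.d : ℕ) : ℝ) := by
          exact_mod_cast (card_le_card this).trans h5
      _ = ((univ.filter fun x => β q x ≠ 0).card : ℝ) * X.d := by push_cast; ring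
      _ ≤ _ := mul_le_mul_of_nonneg_right (hβ.sp q) hd'.le
  · intro v
    rw [h1]
    have : (univ.filter fun q => tn X c β q v ≠ 0) ⊆
        (nb X.G v).biUnion fun x => univ.filter fun q => β q x ≠ 0 := by
      intro q hq
      obtain ⟨x, h2, h3⟩ := h0 q v (mem_filter.1 hq).2
      exact mem_biUnion.2 ⟨x, mem_nb.2 h2, mem_filter.2 ⟨mem_univ _, h3⟩⟩
    calc ((univ.filter fun q => tn X c β q v ≠ 0).card : ℝ)
        ≤ (((nb X.G v).biUnion fun x => univ.filter fun q => β q x ≠ 0).card : ℝ) := by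
          exact_mod_cast card_le_card this
      _ ≤ ((∑ x ∈ nb X.G v, (univ.filter fun q => β q x ≠ 0).card : ℕ) : ℝ) := by
          exact_mod_cast card_biUnion_le
      _ = ∑ x ∈ nb X.G v, ((univ.filter fun q => β q x ≠ 0).card : ℝ) := by push_cast; rfl
      _ ≤ ∑ x ∈ nb X.G v, (X.d : ℝ) ^ A := sum_le_sum fun x _ => hβ.mu x
      _ = (X.d : ℝ) ^ A * X.d := by rw [sum_const, nsmul_eq_mul, card_nb hE, mul_comm]

/-! ### the bilinear family -/

theorem g2_ne {Ty : Kd → Prop} {gr : W → Fin 3} {p : B × B} {v w : W}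
    (h : g2 X Ty gr p v w ≠ 0) : (X.bl v = some p.1 ∧ X.bl w = some p.2) ∧
      (X.Th.Adj v w ∧ gr v ≠ gr w) ∧ Ty (X.kd p.1) ∧ Ty (X.kd p.2) ∧ X.cb p.1 ≠ X.cb p.2 := by
  by_contra h'
  exact h (if_neg h')

theorem g2_nonneg (Ty : Kd → Prop) (gr : W → Fin 3) (p : B × B) (v w : W) :
    0 ≤ g2 X Ty gr p v w := by
  unfold g2
  split_ifs
  · exact zero_le_one
  · exact le_rfl

theorem g2_c2 (hE : Env X M C ζ θ c) (Ty : Kd → Prop) (gr : W → Fin 3) (hC : 2 * C ≤ X.d)
    (p : B × B) : ((univ.filter fun v => ∃ w, g2 X Ty gr p v w ≠ 0 ∨ g2 X Ty gr p w v ≠ 0).card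
      : ℝ) ≤ (X.d : ℝ) ^ (2 : ℝ) := by
  have : (univ.filter fun v => ∃ w, g2 X Ty gr p v w ≠ 0 ∨ g2 X Ty gr p w v ≠ 0) ⊆
      blk X.bl p.1 ∪ blk X.bl p.2 := by
    intro v hv
    obtain ⟨w, h | h⟩ := (mem_filter.1 hv).2
    · exact mem_union_left _ (mem_blk.2 (g2_ne h).1.1)
    · exact mem_union_right _ (mem_blk.2 (g2_ne h).1.2)
  rw [Real.rpow_two]
  calc ((univ.filter fun v => ∃ w, g2 X Ty gr p v w ≠ 0 ∨ g2 X Ty gr p w v ≠ 0).card : ℝ)
      ≤ ((blk X.bl p.1).card : ℝ) + ((blk X.bl p.2).card : ℝ) := by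
        exact_mod_cast (card_le_card this).trans (card_union_le _ _)
    _ ≤ C * X.d + C * X.d := add_le_add (hE.sz _).2 (hE.sz _).2
    _ = (2 * C) * X.d := by ring
    _ ≤ X.d * X.d := mul_le_mul_of_nonneg_right hC (Nat.cast_nonneg _)
    _ = _ := by ring

theorem g2_c3 (hE : Env X M C ζ θ c) (Ty : Kd → Prop) (gr : W → Fin 3) (hd : 2 ≤ X.d)
    (v : W) : ((univ.filter fun p => ∃ w, g2 X Ty gr p v w ≠ 0 ∨ g2 X Ty gr p w v ≠ 0).card
      : ℝ) ≤ (X.d : ℝ) ^ (2 : ℝ) := by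
  have hd' : (2 : ℝ) ≤ X.d := by exact_mod_cast hd
  have h1 : (univ.filter fun p => ∃ w, g2 X Ty gr p v w ≠ 0).card ≤ (nb X.G v).card := by
    refine le_trans (card_le_card_of_injOn (fun p => some p.2) (t := (nb X.G v).image X.bl)
      (fun p hp => ?_) (fun p hp p' hp' h => ?_)) card_image_le
    · obtain ⟨w, hw⟩ := (mem_filter.1 hp).2
      obtain ⟨⟨_, h2⟩, ⟨h3, _⟩, _⟩ := g2_ne hw
      exact mem_coe.2 (mem_image.2 ⟨w, mem_nb.2 (th_adj.1 h3).1, h2⟩)
    · obtain ⟨w, hw⟩ := (mem_filter.1 hp).2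
      obtain ⟨w', hw'⟩ := (mem_filter.1 hp').2
      have h2 := (g2_ne hw).1.1
      have h3 := (g2_ne hw').1.1
      rw [h2] at h3
      exact Prod.ext (Option.some.inj h3) (Option.some.inj h)
  have h1' : (univ.filter fun p => ∃ w, g2 X Ty gr p w v ≠ 0).card ≤ (nb X.G v).card := by
    refine le_trans (card_le_card_of_injOn (fun p => some p.1) (t := (nb X.G v).image X.bl)
      (fun p hp => ?_) (fun p hp p' hp' h => ?_)) card_image_le
    · obtain ⟨w, hw⟩ := (mem_filter.1 hp).2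
      obtain ⟨⟨h2, _⟩, ⟨h3, _⟩, _⟩ := g2_ne hw
      exact mem_coe.2 (mem_image.2 ⟨w, mem_nb.2 (th_adj.1 h3).1.symm, h2⟩)
    · obtain ⟨w, hw⟩ := (mem_filter.1 hp).2
      obtain ⟨w', hw'⟩ := (mem_filter.1 hp').2
      have h2 := (g2_ne hw).1.2
      have h3 := (g2_ne hw').1.2
      rw [h2] at h3
      exact Prod.ext (Option.some.inj h) (Option.some.inj h3)
  have h2 : (univ.filter fun p => ∃ w, g2 X Ty gr p v w ≠ 0 ∨ g2 X Ty gr p w v ≠ 0) ⊆
      (univ.filter fun p => ∃ w, g2 X Ty gr p v w ≠ 0) ∪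
      (univ.filter fun p => ∃ w, g2 X Ty gr p w v ≠ 0) := by
    intro p hp
    obtain ⟨w, h | h⟩ := (mem_filter.1 hp).2
    · exact mem_union_left _ (mem_filter.2 ⟨mem_univ _, w, h⟩)
    · exact mem_union_right _ (mem_filter.2 ⟨mem_univ _, w, h⟩)
  have h3 : ((univ.filter fun p => ∃ w, g2 X Ty gr p v w ≠ 0 ∨ g2 X Ty gr p w v ≠ 0).card : ℝ) ≤
      ((nb X.G v).card : ℝ) + ((nb X.G v).card : ℝ) := by
    exact_mod_cast (card_le_card h2).trans ((card_union_le _ _).trans (add_le_add h1 h1'))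
  rw [card_nb hE] at h3
  rw [Real.rpow_two]
  nlinarith

/-- number of the pairs of the union of two bilinear families at a vertex -/
theorem gsum_c3 {τ τ' : Type u} [Fintype τ] [Fintype τ'] (γ : τ → W → W → ℝ)
    (γ' : τ' → W → W → ℝ) (v : W) :
    (univ.filter fun q => ∃ w, Sum.elim γ γ' q v w ≠ 0 ∨ Sum.elim γ γ' q w v ≠ 0).card =
      (univ.filter fun q => ∃ w, γ q v w ≠ 0 ∨ γ q w v ≠ 0).card +
      (univ.filter fun q => ∃ w, γ' q v w ≠ 0 ∨ γ' q w v ≠ 0).card := by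
  rw [card_filter, card_filter, card_filter, Fintype.sum_sum_type]
  rfl

end Pool.Agent.Work.MP_db9399_ts.helper61
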