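import Pool.Agent.Work.MP_db9399_ts_helper61.FLBd

/-!
# MP_db9399, TSPLIT, block FLB, part 5: uses of the tests (helper61)
-/

set_option autoImplicit false
set_option linter.unusedSectionVars false

namespace Pool.Agent.Work.MP_db9399_ts.helper61

open Finset Classical
open Pool.Agent.Work.MP_db9399_all (nb)
open Pool.Agent.Work.MP_db9399_clj.helper75 (OO blk nB eE)
open Pool.Agent.Work.MP_db9399_ts

universe u

variable {W B : Type u} [Fintype W] [Fintype B] {X : Dat W B} {M : ℕ} {C ζ θ c : ℝ}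

theorem ty_sum {Ty : Kd → Prop} {g : ℕ} (L : W → Fin g) (k : Fin g) (a : W → ℝ) :
    ∑ v with X.ty Ty v, a v * (X.mv Ty L k v - 1) = ∑ v, a v * (X.mv Ty L k v - 1) := by
  rw [sum_filter]
  refine sum_congr rfl fun v _ => ?_
  split_ifs with h
  · rfl
  · rw [mv_none h, sub_self, mul_zero]

theorem sqrt_bd {a n t : ℝ} {d : ℕ} (hd : 1 ≤ d) (hn : 0 ≤ n)
    (h : a ≤ n * (d : ℝ) ^ (-(2 * t))) : Real.sqrt (a * n) ≤ n * (d : ℝ) ^ (-t) := by
  have hd' : (0 : ℝ) < d := by exact_mod_cast hd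
  have h0 : 0 ≤ n * (d : ℝ) ^ (-t) := mul_nonneg hn (Real.rpow_nonneg hd'.le _)
  refine (Real.sqrt_le_sqrt (mul_le_mul_of_nonneg_right h hn)).trans ?_
  rw [show n * (d : ℝ) ^ (-(2 * t)) * n = (n * (d : ℝ) ^ (-t)) ^ 2 by
    rw [mul_pow, ← Real.rpow_natCast ((d : ℝ) ^ (-t)) 2, ← Real.rpow_mul hd'.le]
    push_cast
    rw [show -(2 * t) = -t * 2 by ring]
    ring, Real.sqrt_sq h0]

/-! ### fat pairs -/

theorem tf_eq {x : W} {b : B} (hx : X.bl x = none) (v : W) :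
    tf X (x, b) v = if v ∈ nb X.G x ∩ blk X.bl b then 1 else 0 := by
  unfold tf
  refine if_congr ?_ rfl rfl
  rw [mem_inter, mem_nb, mem_blk]
  exact ⟨fun h => h.2, fun h => ⟨hx, h⟩⟩

theorem tf_sum {x : W} {b : B} (hx : X.bl x = none) (f : W → ℝ) :
    ∑ v, tf X (x, b) v * f v = ∑ v ∈ nb X.G x ∩ blk X.bl b, f v := by
  have h1 : ∀ v, tf X (x, b) v * f v = if v ∈ nb X.G x ∩ blk X.bl b then f v else 0 := by
    intro v
    rw [tf_eq hx, ite_mul, one_mul, zero_mul]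
  rw [sum_congr rfl fun v _ => h1 v, sum_ite_mem, univ_inter]

theorem use_f {Ty : Kd → Prop} {g : ℕ} (hg : 2 ≤ g) (L : W → Fin g) (k : Fin g) {x : W} {b : B}
    (hx : X.bl x = none) (hb : Ty (X.kd b)) {lg : ℝ}
    (h : |∑ v with X.ty Ty v, tf X (x, b) v * (X.mv Ty L k v - 1)| ≤ lg *
      (Real.sqrt (∑ v, tf X (x, b) v ^ 2) + (∑ v, |tf X (x, b) v|) / X.d)) :
    |X.na Ty L k x b - ((g : ℝ) - 1) / g * X.n x b| ≤
      lg * (Real.sqrt (X.n x b) + X.n x b / X.d) := by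
  obtain ⟨g1, g2, g3, g4, g5⟩ := gg_pos hg
  rw [ty_sum, tf_sum hx] at h
  have h1 : ∑ v, tf X (x, b) v ^ 2 = X.n x b := by
    have : ∀ v, tf X (x, b) v ^ 2 = tf X (x, b) v * 1 := by
      intro v
      rw [tf_eq hx]
      split_ifs <;> norm_num
    rw [sum_congr rfl fun v _ => this v, tf_sum hx]
    unfold Dat.n nB
    rw [sum_const, nsmul_eq_mul, mul_one]
  have h2 : ∑ v, |tf X (x, b) v| = X.n x b := by
    have : ∀ v, |tf X (x, b) v| = tf X (x, b) v * 1 := by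
      intro v
      rw [tf_eq hx]
      split_ifs <;> norm_num
    rw [sum_congr rfl fun v _ => this v, tf_sum hx]
    unfold Dat.n nB
    rw [sum_const, nsmul_eq_mul, mul_one]
  rw [h1, h2] at h
  refine le_trans ?_ h
  have h3 := sum_mv (X := X) L k (nb X.G x ∩ blk X.bl b) (fun _ => 1)
    (fun v hv => ⟨b, mem_blk.1 (mem_inter.1 hv).2, hb⟩)
  have h4 : X.na Ty L k x b =
      ∑ v ∈ (nb X.G x ∩ blk X.bl b).filter (fun v => L v ≠ k), (1 : ℝ) := by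
    rw [sum_const, nsmul_eq_mul, mul_one]
    unfold Dat.na
    congr 2
    ext v
    simp only [mem_filter, mem_inter, mem_blk]
    constructor
    · rintro ⟨h5, h6, h7⟩
      exact ⟨⟨h5, h6⟩, (ak_ty ⟨b, h6, hb⟩).1 h7⟩
    · rintro ⟨⟨h5, h6⟩, h7⟩
      exact ⟨h5, h6, (ak_ty ⟨b, h6, hb⟩).2 h7⟩
  have h5 : X.n x b = ∑ v ∈ nb X.G x ∩ blk X.bl b, (1 : ℝ) := by
    rw [sum_const, nsmul_eq_mul, mul_one]
    rfl
  rw [← h4, ← h5] at h3
  simp only [one_mul] at h3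
  rw [h3]
  have h6 : X.na Ty L k x b - ((g : ℝ) - 1) / g * X.n x b =
      ((g : ℝ) - 1) / g * ((g : ℝ) / (g - 1) * X.na Ty L k x b - X.n x b) := by
    rw [mul_sub, ← mul_assoc, g5, one_mul]
  rw [h6, abs_mul, abs_of_nonneg g4]
  exact mul_le_of_le_one_left (abs_nonneg _) g3

/-! ### pairs of blocks, one typed -/

theorem cross (hE : Env X M C ζ θ c) {v : W} {b b' : B} (hv : X.bl v = some b)
    (hb : X.cb b ≠ X.cb b') : ((nb X.Th v ∩ blk X.bl b').card : ℝ) ≤ (X.d : ℝ) ^ (1 - c) := by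
  refine le_trans ?_ (hE.out v (by rw [hv]; simp))
  have : nb X.Th v ∩ blk X.bl b' ⊆ (nb X.G v).filter fun w => X.cq w ≠ X.cq v := by
    intro w hw
    refine mem_filter.2 ⟨nbTh_sub v (mem_inter.1 hw).1, ?_⟩
    rw [hE.cl w b' (mem_blk.1 (mem_inter.1 hw).2), hE.cl v b hv]
    exact fun h => hb (Option.some.inj h).symm
  exact_mod_cast card_le_card this

theorem t1_sum {b b' : B} (hb : X.cb b ≠ X.cb b') (f : W → ℝ) :
    ∑ v, t1 X (b, b') v * f v =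
      ∑ v ∈ blk X.bl b, ((nb X.Th v ∩ blk X.bl b').card : ℝ) * f v := by
  unfold blk
  rw [sum_filter]
  refine sum_congr rfl fun v _ => ?_
  unfold t1
  by_cases h : X.bl v = some b
  · rw [if_pos ⟨h, hb⟩, if_pos h]
    rfl
  · rw [if_neg (fun h' => h h'.1), if_neg h, zero_mul]

theorem use_1 (hE : Env X M C ζ θ c) {Ty : Kd → Prop} {gr : W → Fin 3} {g : ℕ} (hg : 2 ≤ g)
    (L : W → Fin g) (k : Fin g) {b b' : B} (hbb : X.cb b ≠ X.cb b') (hb : Ty (X.kd b))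
    (hb' : ¬ Ty (X.kd b')) {lg : ℝ} (hlg : 0 ≤ lg)
    (h : |∑ v with X.ty Ty v, t1 X (b, b') v * (X.mv Ty L k v - 1)| ≤ lg *
      (Real.sqrt (∑ v, t1 X (b, b') v ^ 2) + (∑ v, |t1 X (b, b') v|) / X.d)) :
    |X.eu Ty gr L k b b' - ((g : ℝ) - 1) / g * X.e b b'| ≤
      lg * (Real.sqrt ((X.d : ℝ) ^ (1 - c) * X.e b b') + X.e b b' / X.d) := by
  obtain ⟨g1, g2, g3, g4, g5⟩ := gg_pos hg
  rw [ty_sum, t1_sum hbb] at h
  have h0 : ∀ v, |t1 X (b, b') v| = t1 X (b, b') v * 1 := by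
    intro v
    unfold t1
    split_ifs
    · rw [abs_of_nonneg (Nat.cast_nonneg _), mul_one]
    · norm_num
  have h1 : ∑ v, t1 X (b, b') v ^ 2 ≤ (X.d : ℝ) ^ (1 - c) * X.e b b' := by
    have : ∀ v, t1 X (b, b') v ^ 2 ≤ t1 X (b, b') v * (X.d : ℝ) ^ (1 - c) := by
      intro v
      rw [sq]
      unfold t1
      split_ifs with h'
      · exact mul_le_mul_of_nonneg_left (cross hE h'.1 hbb) (Nat.cast_nonneg _)
      · rw [zero_mul, zero_mul]
    refine (sum_le_sum fun v _ => this v).trans (le_of_eq ?_)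
    rw [t1_sum hbb, ← sum_mul, mul_comm]
    rfl
  have h2 : ∑ v, |t1 X (b, b') v| = X.e b b' := by
    rw [sum_congr rfl fun v _ => h0 v, t1_sum hbb]
    simp only [mul_one]
    rfl
  rw [h2] at h
  refine le_trans ?_ (h.trans (mul_le_mul_of_nonneg_left
    (add_le_add_left (Real.sqrt_le_sqrt h1) _) hlg))
  have h3 := sum_mv (X := X) L k (blk X.bl b)
    (fun v => ((nb X.Th v ∩ blk X.bl b').card : ℝ)) (fun v hv => ⟨b, mem_blk.1 hv, hb⟩)
  have h4 : X.eu Ty gr L k b b' = ∑ v ∈ (blk X.bl b).filter (fun v => L v ≠ k),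
      ((nb X.Th v ∩ blk X.bl b').card : ℝ) := by
    unfold Dat.eu
    rw [sum_filter]
    refine sum_congr rfl fun v hv => ?_
    have hvt : X.ty Ty v := ⟨b, mem_blk.1 hv, hb⟩
    split_ifs with hk
    · congr 2
      ext w
      rw [mem_filter, mem_inter, mem_blk, mem_nb]
      constructor
      · rintro ⟨h5, h6⟩
        exact ⟨h6.1, h5⟩
      · rintro ⟨h5, h6⟩
        have hw : ¬ X.ty Ty w := fun h7 => hb' ((ty_iff h6).1 h7)
        exact ⟨h6, h5, (ak_ty hvt).2 hk, fun h7 => absurd h7 hw, fun _ h7 => absurd h7 hw⟩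
    · rw [Nat.cast_eq_zero, card_eq_zero, filter_eq_empty_iff]
      intro w _ h5
      exact hk ((ak_ty hvt).1 h5.2.1)
  rw [← h4] at h3
  have h5 : ∑ v ∈ blk X.bl b, ((nb X.Th v ∩ blk X.bl b').card : ℝ) = X.e b b' := rfl
  rw [h5] at h3
  rw [h3]
  have h6 : X.eu Ty gr L k b b' - ((g : ℝ) - 1) / g * X.e b b' =
      ((g : ℝ) - 1) / g * ((g : ℝ) / (g - 1) * X.eu Ty gr L k b b' - X.e b b') := by
    rw [mul_sub, ← mul_assoc, g5, one_mul]
  rw [h6, abs_mul, abs_of_nonneg g4]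
  exact mul_le_of_le_one_left (abs_nonneg _) g3

/-! ### pairs of typed blocks -/

theorem eu_eq {Ty : Kd → Prop} {gr : W → Fin 3} {g : ℕ} (L : W → Fin g) (k : Fin g) {b b' : B}
    (hb : Ty (X.kd b)) (hb' : Ty (X.kd b')) :
    ((g : ℝ) / (g - 1)) ^ 2 * X.eu Ty gr L k b b' = ∑ v ∈ blk X.bl b, ∑ w ∈ blk X.bl b',
      if X.Th.Adj v w ∧ gr v ≠ gr w then X.mv Ty L k v * X.mv Ty L k w else 0 := by
  unfold Dat.eu
  rw [mul_sum]
  refine sum_congr rfl fun v hv => ?_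
  rw [card_filter]
  push_cast
  rw [mul_sum]
  refine sum_congr rfl fun w hw => ?_
  have hvt : X.ty Ty v := ⟨b, mem_blk.1 hv, hb⟩
  have hwt : X.ty Ty w := ⟨b', mem_blk.1 hw, hb'⟩
  rw [mv_ty hvt, mv_ty hwt]
  unfold Dat.us
  rw [ak_ty hvt, ak_ty hwt]
  by_cases h1 : L v = k
  · rw [if_neg (fun h => h.2.1 h1), if_pos h1, zero_mul, ite_self, mul_zero]
  · by_cases h2 : L w = k
    · rw [if_neg (fun h => h.2.2.1 h2), if_pos h2]
      simp
    · rw [if_neg h1, if_neg h2]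
      by_cases h3 : X.Th.Adj v w ∧ gr v ≠ gr w
      · rw [if_pos ⟨h3.1, h1, h2, fun _ _ => h3.2⟩, if_pos h3]
        ring
      · rw [if_neg (fun h => h3 ⟨h.1, h.2.2.2 hvt hwt⟩), if_neg h3, mul_zero]

theorem cx_eq (gr : W → Fin 3) (A A' : Finset W) :
    X.cx gr A A' = ∑ v ∈ A, ∑ w ∈ A', if X.Th.Adj v w ∧ gr v ≠ gr w then (1 : ℝ) else 0 := by
  have h1 : ∀ v, ∑ w ∈ A', (if X.Th.Adj v w ∧ gr v ≠ gr w then (1 : ℝ) else 0) =
      ∑ a' : Fin 3, ∑ w ∈ A'.filter (fun w => gr w = a'),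
        if X.Th.Adj v w ∧ gr v ≠ gr w then (1 : ℝ) else 0 := fun v =>
    (sum_fiberwise A' gr _).symm
  rw [sum_congr rfl fun v _ => h1 v, ← sum_fiberwise A gr]
  unfold Dat.cx Dat.cg eE
  refine sum_congr rfl fun a _ => ?_
  rw [sum_comm]
  refine sum_congr rfl fun a' _ => ?_
  split_ifs with h
  · refine (sum_eq_zero fun v hv => sum_eq_zero fun w hw => if_neg fun h' => h'.2 ?_).symm
    rw [(mem_filter.1 hv).2, (mem_filter.1 hw).2, h]
  · refine sum_congr rfl fun v hv => ?_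
    rw [inter_comm, ← filter_mem_eq_inter, card_filter]
    push_cast
    refine sum_congr rfl fun w hw => if_congr ?_ rfl rfl
    rw [mem_nb, (mem_filter.1 hv).2, (mem_filter.1 hw).2]
    exact ⟨fun h' => ⟨h', h⟩, fun h' => h'.1⟩

theorem g2_eq {Ty : Kd → Prop} {gr : W → Fin 3} {b b' : B} (hbb : X.cb b ≠ X.cb b')
    (hb : Ty (X.kd b)) (hb' : Ty (X.kd b')) (f : W → W → ℝ) :
    ∑ v, ∑ w, g2 X Ty gr (b, b') v w * f v w = ∑ v ∈ blk X.bl b, ∑ w ∈ blk X.bl b',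
      if X.Th.Adj v w ∧ gr v ≠ gr w then f v w else 0 := by
  unfold blk
  rw [sum_filter]
  refine sum_congr rfl fun v _ => ?_
  by_cases hv : X.bl v = some b
  · rw [if_pos hv, sum_filter]
    refine sum_congr rfl fun w _ => ?_
    unfold g2
    by_cases hw : X.bl w = some b'
    · rw [if_pos hw]
      by_cases h : X.Th.Adj v w ∧ gr v ≠ gr w
      · rw [if_pos ⟨⟨hv, hw⟩, h, hb, hb', hbb⟩, if_pos h, one_mul]
      · rw [if_neg (fun h' => h h'.2.1), if_neg h, zero_mul]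
    · rw [if_neg (fun h' => hw h'.1.2), if_neg hw, zero_mul]
  · rw [if_neg hv]
    refine sum_eq_zero fun w _ => ?_
    unfold g2
    rw [if_neg (fun h' => hv h'.1.1), zero_mul]

theorem cx_le_e (gr : W → Fin 3) (b b' : B) : X.cx gr (blk X.bl b) (blk X.bl b') ≤ X.e b b' := by
  rw [cx_eq]
  unfold Dat.e eE
  refine sum_le_sum fun v _ => ?_
  rw [inter_comm, ← filter_mem_eq_inter, card_filter]
  push_cast
  refine sum_le_sum fun w _ => ?_
  split_ifs with h1 h2 h2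
  · exact le_rfl
  · exact absurd (mem_nb.2 h1.1) h2
  · exact zero_le_one
  · exact le_rfl

theorem g2_row (hE : Env X M C ζ θ c) (Ty : Kd → Prop) (gr : W → Fin 3) (b b' : B) (v : W) :
    ∑ w, g2 X Ty gr (b, b') v w ≤ (X.d : ℝ) ^ (1 - c) := by
  by_cases h : X.bl v = some b ∧ X.cb b ≠ X.cb b'
  · refine le_trans ?_ (cross hE h.1 h.2)
    rw [inter_comm, ← filter_mem_eq_inter, card_filter]
    push_cast
    unfold blk
    rw [sum_filter]
    refine sum_le_sum fun w _ => ?_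
    by_cases h0 : g2 X Ty gr (b, b') v w = 0
    · rw [h0]
      split_ifs <;> norm_num
    · obtain ⟨⟨_, h1⟩, ⟨h2, _⟩, _⟩ := g2_ne h0
      rw [if_pos h1, if_pos (mem_nb.2 h2)]
      unfold g2
      split_ifs <;> norm_num
  · rw [sum_eq_zero fun w _ => ?_]
    · exact Real.rpow_nonneg (Nat.cast_nonneg _) _
    · by_contra h0
      obtain ⟨⟨h1, _⟩, _, _, _, h2⟩ := g2_ne h0
      exact h ⟨h1, h2⟩

theorem g2_col (hE : Env X M C ζ θ c) (Ty : Kd → Prop) (gr : W → Fin 3) (b b' : B) (v : W) :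
    ∑ w, g2 X Ty gr (b, b') w v ≤ (X.d : ℝ) ^ (1 - c) := by
  have h : ∀ w, g2 X Ty gr (b, b') w v = g2 X Ty gr (b', b) v w := by
    intro w
    unfold g2
    refine if_congr ⟨fun h => ?_, fun h => ?_⟩ rfl rfl
    · exact ⟨⟨h.1.2, h.1.1⟩, ⟨h.2.1.1.symm, h.2.1.2.symm⟩, h.2.2.2.1, h.2.2.1,
        h.2.2.2.2.symm⟩
    · exact ⟨⟨h.1.2, h.1.1⟩, ⟨h.2.1.1.symm, h.2.1.2.symm⟩, h.2.2.2.1, h.2.2.1,
        h.2.2.2.2.symm⟩
  rw [sum_congr rfl fun w _ => h w]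
  exact g2_row hE Ty gr b' b v

theorem use_2 (hE : Env X M C ζ θ c) {Ty : Kd → Prop} {gr : W → Fin 3} {g : ℕ} (hg : 2 ≤ g)
    (hG : Grp X c gr) (L : W → Fin g) (k : Fin g) {b b' : B} (hbb : X.cb b ≠ X.cb b')
    (hb : Ty (X.kd b)) (hb' : Ty (X.kd b')) (he : (X.d : ℝ) ^ (1 - 3 * c / 4) ≤ X.e b b')
    {lg : ℝ} (hlg : 0 ≤ lg)
    (h : |∑ v, ∑ w, g2 X Ty gr (b, b') v w * (X.mv Ty L k v * X.mv Ty L k w - 1)| ≤
      lg * (Real.sqrt (∑ v, (∑ w, (g2 X Ty gr (b, b') v w + g2 X Ty gr (b, b') w v)) ^ 2) +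
            (∑ v, ∑ w, g2 X Ty gr (b, b') v w) / X.d))
    (hn : lg * (Real.sqrt (4 * (X.d : ℝ) ^ (1 - c) * X.e b b') + X.e b b' / X.d) ≤
      X.e b b' / 4) : X.e b b' / 32 ≤ X.eu Ty gr L k b b' := by
  obtain ⟨g1, g2', g3, g4, g5⟩ := gg_pos hg
  have hd0 : (0 : ℝ) ≤ (X.d : ℝ) ^ (1 - c) := Real.rpow_nonneg (Nat.cast_nonneg _) _
  have hs : ∑ v, ∑ w, g2 X Ty gr (b, b') v w = X.cx gr (blk X.bl b) (blk X.bl b') := by
    have := g2_eq (gr := gr) hbb hb hb' (fun _ _ => 1)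
    simp only [mul_one] at this
    rw [this, cx_eq]
  have h1 : ∑ v, (∑ w, (g2 X Ty gr (b, b') v w + g2 X Ty gr (b, b') w v)) ^ 2 ≤
      4 * (X.d : ℝ) ^ (1 - c) * X.e b b' := by
    have h2 : ∀ v, (∑ w, (g2 X Ty gr (b, b') v w + g2 X Ty gr (b, b') w v)) ^ 2 ≤
        2 * (X.d : ℝ) ^ (1 - c) *
        (∑ w, g2 X Ty gr (b, b') v w + ∑ w, g2 X Ty gr (b, b') w v) := by
      intro v
      rw [sum_add_distrib, sq]
      refine mul_le_mul_of_nonneg_right ?_ (add_nonneg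
        (sum_nonneg fun w _ => g2_nonneg Ty gr _ _ _) (sum_nonneg fun w _ => g2_nonneg Ty gr _ _ _))
      have h3 := g2_row hE Ty gr b b' v
      have h4 := g2_col hE Ty gr b b' v
      linarith
    refine (sum_le_sum fun v _ => h2 v).trans ?_
    rw [← mul_sum, sum_add_distrib]
    have h5 : ∑ v, ∑ w, g2 X Ty gr (b, b') w v = ∑ v, ∑ w, g2 X Ty gr (b, b') v w := sum_comm
    rw [h5, hs]
    have h6 := cx_le_e (X := X) gr b b'
    calc 2 * (X.d : ℝ) ^ (1 - c) * (X.cx gr (blk X.bl b) (blk X.bl b') +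
        X.cx gr (blk X.bl b) (blk X.bl b')) = 4 * (X.d : ℝ) ^ (1 - c) *
        X.cx gr (blk X.bl b) (blk X.bl b') := by ring
      _ ≤ _ := mul_le_mul_of_nonneg_left h6 (by positivity)
  have h2 : |∑ v, ∑ w, g2 X Ty gr (b, b') v w * (X.mv Ty L k v * X.mv Ty L k w - 1)| ≤
      X.e b b' / 4 := by
    refine h.trans (le_trans (mul_le_mul_of_nonneg_left (add_le_add (Real.sqrt_le_sqrt h1)
      (div_le_div_of_nonneg_right ?_ (Nat.cast_nonneg _))) hlg) hn)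
    rw [hs]
    exact cx_le_e gr b b'
  have h3 : ∑ v, ∑ w, g2 X Ty gr (b, b') v w * (X.mv Ty L k v * X.mv Ty L k w - 1) =
      ((g : ℝ) / (g - 1)) ^ 2 * X.eu Ty gr L k b b' - X.cx gr (blk X.bl b) (blk X.bl b') := by
    rw [eu_eq L k hb hb', cx_eq, g2_eq hbb hb hb', ← sum_sub_distrib]
    refine sum_congr rfl fun v _ => ?_
    rw [← sum_sub_distrib]
    refine sum_congr rfl fun w _ => ?_
    split_ifs
    · rfl
    · rw [sub_zero]
  have h4 : X.e b b' / 2 ≤ X.cx gr (blk X.bl b) (blk X.bl b') := by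
    have h5 := hG.thk b b' hbb he
    unfold Dat.cx
    calc X.e b b' / 2 = ∑ a : Fin 3, ∑ a' : Fin 3, if a = a' then 0 else X.e b b' / 12 := by
          simp only [Fin.sum_univ_three]
          simp
          ring
      _ ≤ _ := by
          refine sum_le_sum fun a _ => sum_le_sum fun a' _ => ?_
          split_ifs
          · exact le_rfl
          · exact h5 a a'
  rw [h3] at h2
  have h6 := (abs_le.1 h2).1
  have h7 : 0 ≤ X.eu Ty gr L k b b' := sum_nonneg fun _ _ => Nat.cast_nonneg _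
  have h8 : ((g : ℝ) / (g - 1)) ^ 2 ≤ 4 := by nlinarith
  have h9 : ((g : ℝ) / (g - 1)) ^ 2 * X.eu Ty gr L k b b' ≤ 4 * X.eu Ty gr L k b b' :=
    mul_le_mul_of_nonneg_right h8 h7
  have h10 : 0 ≤ X.e b b' := le_trans (Real.rpow_nonneg (Nat.cast_nonneg _) _) he
  linarith

end Pool.Agent.Work.MP_db9399_ts.helper61
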