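import Pool.Agent.Work.MP_db9399_ts_helper61.FLBe

/-!
# MP_db9399, TSPLIT, block FLB, part 6: the functionals (helper61)
-/

set_option autoImplicit false
set_option linter.unusedSectionVars false

namespace Pool.Agent.Work.MP_db9399_ts.helper61

open Finset Classical
open Pool.Agent.Work.MP_db9399_all (nb)
open Pool.Agent.Work.MP_db9399_clj.helper75 (OO blk nB eE)
open Pool.Agent.Work.MP_db9399_ts

universe u

variable {W B : Type u} [Fintype W] [Fintype B] {X : Dat W B} {M : ℕ} {C ζ θ c : ℝ}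

/-- the functionals -/
noncomputable def Ff (X : Dat W B) (c : ℝ) (Ty : Kd → Prop) (gr : W → Fin 3) {g : ℕ} :
    Fin 5 ⊕ Fin g → (W → Fin g) → W → B → ℝ
  | Sum.inl 0, _, v, b => (((nb X.Th v ∩ blk X.bl b).filter fun w => gr v < gr w).card : ℝ)
  | Sum.inl 1, _, v, b => thr X c b v
  | Sum.inl 2, _, v, _ => ((univ.filter fun x => X.bl x = none ∧ v ∈ X.nf c x).card : ℝ)
  | Sum.inl 3, _, v, b => (((nb X.Th v).filter fun w =>
      ¬ X.ty Ty w ∧ ∃ b', X.bl w = some b' ∧ X.cb b' = X.cb b).card : ℝ)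
  | Sum.inl 4, _, v, b => ((nb X.Th v ∩ blk X.bl b).card : ℝ)
  | Sum.inr k, L, v, b => (((nb X.Th v ∩ blk X.bl b).filter fun w =>
      gr w < gr v ∧ X.ak Ty L k w).card : ℝ)

theorem thr_nonneg (b : B) (v : W) : 0 ≤ thr X c b v := sum_nonneg fun x _ => nfx_nonneg x b

theorem thr_le (b : B) (v : W) : thr X c b v ≤
    ((univ.filter fun x => (X.fr x ∧ ¬ X.h3 c x ∧ X.pb c x b) ∧ v ∈ X.nf c x).card : ℝ) := by
  unfold thr
  refine (sum_le_sum fun x hx => nfx_le_one (mem_filter.1 hx).2.1.2.2).trans (le_of_eq ?_)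
  rw [sum_const, nsmul_eq_mul, mul_one]

theorem Ff_abs (hE : Env X M C ζ θ c) (Ty : Kd → Prop) (gr : W → Fin 3) {g : ℕ}
    (t : Fin 5 ⊕ Fin g) (L : W → Fin g) (v : W) (b : B) (hv : X.bl v ≠ none) :
    |Ff X c Ty gr t L v b| ≤ ζ * X.d := by
  have h0 : X.td v ≤ ζ * X.d := hE.thn v hv
  unfold Dat.td at h0
  have h1 : ∀ S : Finset W, S ⊆ nb X.Th v → |((S.card : ℕ) : ℝ)| ≤ ζ * X.d := by
    intro S hS
    rw [abs_of_nonneg (Nat.cast_nonneg _)]
    refine le_trans ?_ h0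
    exact_mod_cast card_le_card hS
  rcases t with t | k
  · fin_cases t
    · exact h1 _ ((filter_subset _ _).trans inter_subset_left)
    · show |thr X c b v| ≤ _
      rw [abs_of_nonneg (thr_nonneg b v)]
      refine (thr_le b v).trans (le_trans ?_ (cntO hE hv))
      have : (univ.filter fun x => (X.fr x ∧ ¬ X.h3 c x ∧ X.pb c x b) ∧ v ∈ X.nf c x) ⊆
          univ.filter fun x => X.bl x = none ∧ X.G.Adj x v := by
        intro x hx
        obtain ⟨⟨h2, _⟩, h3⟩ := (mem_filter.1 hx).2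
        exact mem_filter.2 ⟨mem_univ _, h2.1, (nf_mem.1 h3).1⟩
      exact_mod_cast card_le_card this
    · show |((univ.filter fun x => X.bl x = none ∧ v ∈ X.nf c x).card : ℝ)| ≤ _
      refine h1 _ fun x hx => ?_
      obtain ⟨h2, h3⟩ := (mem_filter.1 hx).2
      exact mem_nb.2 (th_O hE h2 (nf_mem.1 h3).1.symm)
    · exact h1 _ (filter_subset _ _)
    · exact h1 _ inter_subset_left
  · exact h1 _ ((filter_subset _ _).trans inter_subset_left)

theorem Ff_adp (Ty : Kd → Prop) (gr : W → Fin 3) {g : ℕ} (t : Fin 5 ⊕ Fin g)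
    (L L' : W → Fin g) (v : W) (b : B)
    (h : ∀ v', X.ty Ty v' → gr v' < gr v → L v' = L' v') :
    Ff X c Ty gr t L v b = Ff X c Ty gr t L' v b := by
  rcases t with t | k
  · fin_cases t <;> rfl
  · show (((nb X.Th v ∩ blk X.bl b).filter fun w => gr w < gr v ∧ X.ak Ty L k w).card : ℝ) =
      (((nb X.Th v ∩ blk X.bl b).filter fun w => gr w < gr v ∧ X.ak Ty L' k w).card : ℝ)
    congr 2
    ext w
    simp only [mem_filter]
    refine and_congr_right fun _ => and_congr_right fun hw => ?_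
    unfold Dat.ak
    refine forall_congr' fun ht => ?_
    rw [h w ht hw]

/-! ### pairs of blocks of one cluster -/

/-- the noise of the pairs of blocks with increasing groups -/
noncomputable def dL (X : Dat W B) (Ty : Kd → Prop) (gr : W → Fin 3) {g : ℕ} (L : W → Fin g)
    (k : Fin g) (b b' : B) : ℝ :=
  ∑ v ∈ blk X.bl b, ∑ w ∈ blk X.bl b',
    if X.Th.Adj v w ∧ gr v < gr w then X.mv Ty L k v * X.mv Ty L k w - 1 else 0

theorem card_if (T : Finset W) (v : W) (p : W → Prop) [DecidablePred p] :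
    (((nb X.Th v ∩ T).filter p).card : ℝ) =
      ∑ w ∈ T, if X.Th.Adj v w ∧ p w then (1 : ℝ) else 0 := by
  rw [inter_comm, ← filter_mem_eq_inter, filter_filter, card_filter]
  push_cast
  refine sum_congr rfl fun w _ => if_congr ?_ rfl rfl
  rw [mem_nb]

theorem dL_eq (Ty : Kd → Prop) (gr : W → Fin 3) {g : ℕ} (L : W → Fin g) (k : Fin g) {b b' : B}
    (hb : Ty (X.kd b)) : dL X Ty gr L k b b' =
      ∑ v ∈ blk X.bl b, Ff X c Ty gr (g := g) (Sum.inl 0) L v b' * (X.mv Ty L k v - 1) +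
      (g : ℝ) / (g - 1) * ∑ w ∈ blk X.bl b', Ff X c Ty gr (Sum.inr k) L w b *
        (X.mv Ty L k w - 1) := by
  have h1 : ∀ v w, (if X.Th.Adj v w ∧ gr v < gr w then
      X.mv Ty L k v * X.mv Ty L k w - 1 else 0) =
      (if X.Th.Adj v w ∧ gr v < gr w then (1 : ℝ) else 0) * (X.mv Ty L k v - 1) +
      (if X.Th.Adj v w ∧ gr v < gr w then X.mv Ty L k v else 0) * (X.mv Ty L k w - 1) := by
    intro v w
    split_ifs <;> ring
  unfold dL
  rw [sum_congr rfl fun v _ => sum_congr rfl fun w _ => h1 v w]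
  rw [sum_congr rfl fun v _ => sum_add_distrib, sum_add_distrib]
  congr 1
  · refine sum_congr rfl fun v _ => ?_
    rw [← sum_mul]
    congr 1
    exact (card_if (X := X) (blk X.bl b') v (fun w => gr v < gr w)).symm
  · rw [sum_comm, mul_sum]
    refine sum_congr rfl fun w _ => ?_
    rw [← sum_mul, ← mul_assoc]
    congr 1
    have h2 : Ff X c Ty gr (Sum.inr k) L w b = ∑ v ∈ blk X.bl b,
        if X.Th.Adj w v ∧ (gr v < gr w ∧ X.ak Ty L k v) then (1 : ℝ) else 0 :=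
      card_if (X := X) (blk X.bl b) w (fun v => gr v < gr w ∧ X.ak Ty L k v)
    rw [h2, mul_sum]
    refine sum_congr rfl fun v hv => ?_
    have hvt : X.ty Ty v := ⟨b, mem_blk.1 hv, hb⟩
    rw [mv_ty hvt, ak_ty hvt]
    by_cases h3 : X.Th.Adj v w ∧ gr v < gr w
    · rw [if_pos h3]
      by_cases h4 : L v = k
      · rw [if_pos h4, if_neg (fun h => h.2.2 h4), mul_zero]
      · rw [if_neg h4, if_pos ⟨h3.1.symm, h3.2, h4⟩, mul_one]
    · rw [if_neg h3, if_neg (fun h => h3 ⟨h.1.symm, h.2.1⟩), mul_zero]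

theorem pair_sum (Ty : Kd → Prop) (gr : W → Fin 3) {g : ℕ} (L : W → Fin g) (k : Fin g) {b b' : B}
    (hb : Ty (X.kd b)) (hb' : Ty (X.kd b')) :
    ((g : ℝ) / (g - 1)) ^ 2 * X.eu Ty gr L k b b' - X.cx gr (blk X.bl b) (blk X.bl b') =
      dL X Ty gr L k b b' + dL X Ty gr L k b' b := by
  rw [eu_eq L k hb hb', cx_eq, ← sum_sub_distrib]
  unfold dL
  rw [sum_comm (s := blk X.bl b') (t := blk X.bl b), ← sum_add_distrib]
  refine sum_congr rfl fun v _ => ?_
  rw [← sum_sub_distrib, ← sum_add_distrib]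
  refine sum_congr rfl fun w _ => ?_
  by_cases h : X.Th.Adj v w
  · have h' := h.symm
    rcases lt_trichotomy (gr v) (gr w) with h1 | h1 | h1
    · rw [if_pos ⟨h, h1.ne⟩, if_pos ⟨h, h1.ne⟩, if_pos ⟨h, h1⟩, if_neg (fun h2 => lt_asymm h1 h2.2)]
      ring
    · rw [if_neg (fun h2 => h2.2 h1), if_neg (fun h2 => h2.2 h1),
        if_neg (fun h2 => absurd h2.2 (by rw [h1]; exact lt_irrefl _)),
        if_neg (fun h2 => absurd h2.2 (by rw [h1]; exact lt_irrefl _))]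
      ring
    · rw [if_pos ⟨h, h1.ne'⟩, if_pos ⟨h, h1.ne'⟩, if_neg (fun h2 => lt_asymm h1 h2.2),
        if_pos ⟨h', h1⟩]
      ring
  · rw [if_neg (fun h2 => h h2.1), if_neg (fun h2 => h h2.1), if_neg (fun h2 => h h2.1),
      if_neg (fun h2 => h h2.1.symm)]
    ring

/-- `in2` -/
theorem use_in {Ty : Kd → Prop} {gr : W → Fin 3} {g : ℕ} (hg : 2 ≤ g)
    (hG : Grp X c gr) (L : W → Fin g) (k : Fin g) {K : ℝ}
    (h : ∀ t b b', Ty (X.kd b) → X.cb b' = X.cb b →
      |∑ v ∈ blk X.bl b, Ff X c Ty gr (g := g) t L v b' * (X.mv Ty L k v - 1)| ≤ K) {b b' : B}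
    (hbb : X.cb b = X.cb b') (hb : Ty (X.kd b)) (hb' : Ty (X.kd b'))
    (he : Real.sqrt X.d ≤ X.e b b') (hKe : 6 * K ≤ X.e b b' / 8) :
    X.e b b' / 32 ≤ X.eu Ty gr L k b b' := by
  obtain ⟨g1, g2', g3, g4, g5⟩ := gg_pos hg
  have h1 : ∀ b b', X.cb b = X.cb b' → Ty (X.kd b) → Ty (X.kd b') →
      |dL X Ty gr L k b b'| ≤ 3 * K := by
    intro b b' hbb hb hb'
    rw [dL_eq (c := c) Ty gr L k hb]
    refine (abs_add_le _ _).trans ?_
    rw [abs_mul, abs_of_pos g1]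
    have h2 := h (Sum.inl 0) b b' hb hbb.symm
    have h3 := h (Sum.inr k) b' b hb' hbb
    have h4 := mul_le_mul g2' h3 (abs_nonneg _) two_pos.le
    linarith
  have h2 := h1 b b' hbb hb hb'
  have h3 := h1 b' b hbb.symm hb' hb
  have h4 := pair_sum Ty gr L k hb hb' (X := X)
  have h5 := hG.inn b b' hbb he
  have h7 : 0 ≤ X.eu Ty gr L k b b' := sum_nonneg fun _ _ => Nat.cast_nonneg _
  have h8 : ((g : ℝ) / (g - 1)) ^ 2 ≤ 4 := by nlinarith
  have h9 : ((g : ℝ) / (g - 1)) ^ 2 * X.eu Ty gr L k b b' ≤ 4 * X.eu Ty gr L k b b' :=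
    mul_le_mul_of_nonneg_right h8 h7
  have h10 := (abs_le.1 h2).1
  have h11 := (abs_le.1 h3).1
  linarith

end Pool.Agent.Work.MP_db9399_ts.helper61
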