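import Pool.Agent.Work.MP_db9399_ts_helper61.FLBf

/-!
# MP_db9399, TSPLIT, block FLB, part 7: the sums over the hubs (helper61)
-/

set_option autoImplicit false
set_option linter.unusedSectionVars false

namespace Pool.Agent.Work.MP_db9399_ts.helper61

open Finset Classical
open Pool.Agent.Work.MP_db9399_all (nb)
open Pool.Agent.Work.MP_db9399_clj.helper75 (OO blk nB eE)
open Pool.Agent.Work.MP_db9399_ts

universe u

variable {W B : Type u} [Fintype W] [Fintype B] {X : Dat W B} {M : ℕ} {C ζ θ c : ℝ}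

theorem sum_swap (a : W → ℝ) (P : W → Prop) [DecidablePred P] (f : W → ℝ) :
    ∑ x with P x, a x * ∑ v ∈ X.nf c x, f v =
      ∑ v, (∑ x with P x ∧ v ∈ X.nf c x, a x) * f v := by
  have h1 : ∀ x, a x * ∑ v ∈ X.nf c x, f v = ∑ v ∈ X.nf c x, a x * f v := fun x => mul_sum _ _ _
  rw [sum_congr rfl fun x _ => h1 x]
  have h2 : ∀ v, (∑ x with P x ∧ v ∈ X.nf c x, a x) * f v =
      ∑ x with P x ∧ v ∈ X.nf c x, a x * f v := fun v => sum_mul _ _ _
  rw [sum_congr rfl fun v _ => h2 v]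
  refine sum_comm' fun x v => ?_
  simp only [mem_filter, mem_univ, true_and, and_true]

theorem n1_eq (Ty : Kd → Prop) {g : ℕ} (L : W → Fin g) (k : Fin g) (b : B) :
    ∑ x with X.fr x ∧ ¬ X.h3 c x ∧ X.pb c x b,
      X.n x b / X.fx c x * ∑ v ∈ X.nf c x, (X.mv Ty L k v - 1) =
      ∑ v, tO X c b v * (X.mv Ty L k v - 1) +
      ∑ v, if X.cq v = some (X.cb b) then thr X c b v * (X.mv Ty L k v - 1) else 0 := by
  rw [sum_swap, ← sum_add_distrib]
  refine sum_congr rfl fun v _ => ?_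
  have h1 : ∑ x with (X.fr x ∧ ¬ X.h3 c x ∧ X.pb c x b) ∧ v ∈ X.nf c x, X.n x b / X.fx c x =
    thr X c b v := rfl
  rw [h1]
  unfold tO
  by_cases h : X.cq v = some (X.cb b)
  · rw [if_neg (not_not.2 h), if_pos h, zero_mul, zero_add]
  · rw [if_pos h, if_neg h, add_zero]

theorem tO_nonneg (b : B) (v : W) : 0 ≤ tO X c b v := by
  unfold tO
  split_ifs
  · exact thr_nonneg b v
  · exact le_rfl

theorem pb_cq (hE : Env X M C ζ θ c) {x v : W} {b : B} (hp : X.pb c x b) (hv : X.bl v ≠ none)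
    (h : X.cq v ≠ some (X.cb b)) : X.cq x ≠ X.cq v := by
  rcases hp.2 with h1 | h1
  · obtain ⟨b', hb'⟩ := Option.ne_none_iff_exists'.1 hv
    rw [h1, hE.cl v b' hb']
    simp
  · rw [h1]
    exact h.symm

theorem tO_le (hE : Env X M C ζ θ c) (b : B) (v : W) : tO X c b v ≤ (X.d : ℝ) ^ (1 - c) := by
  have h0 : (0 : ℝ) ≤ (X.d : ℝ) ^ (1 - c) := Real.rpow_nonneg (Nat.cast_nonneg _) _
  by_cases hv : X.bl v = none
  · unfold tO thr
    rw [filter_eq_empty_iff.2 fun x _ h => nf_light h.2 hv, sum_empty, ite_self]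
    exact h0
  · unfold tO
    split_ifs with h
    · refine (thr_le b v).trans (le_trans ?_ (cntQ hE hv))
      have : (univ.filter fun x => (X.fr x ∧ ¬ X.h3 c x ∧ X.pb c x b) ∧ v ∈ X.nf c x) ⊆
          univ.filter fun x => X.cq x ≠ X.cq v ∧ X.G.Adj x v := by
        intro x hx
        obtain ⟨⟨_, _, hp⟩, h3⟩ := (mem_filter.1 hx).2
        exact mem_filter.2 ⟨mem_univ _, pb_cq hE hp hv h, (nf_mem.1 h3).1⟩
      exact_mod_cast card_le_card this
    · exact h0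

theorem tO_sum (hE : Env X M C ζ θ c) (hζ : 0 ≤ ζ) (hd : 1 ≤ X.d) (b : B) :
    ∑ v, tO X c b v ≤ 8 * C * ζ * X.d * (X.d : ℝ) ^ (c / 4) := by
  have hd' : (0 : ℝ) < X.d := by exact_mod_cast hd
  have hD : (0 : ℝ) ≤ (X.d : ℝ) ^ (c / 4) := Real.rpow_nonneg hd'.le _
  have h1 : ∀ v, tO X c b v ≤ ∑ x, if (X.fr x ∧ ¬ X.h3 c x ∧ X.pb c x b) ∧
      (v ∈ X.nf c x ∧ X.cq x ≠ X.cq v) then X.n x b / X.fx c x else 0 := by
    intro v
    unfold tO thr
    split_ifs with h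
    · rw [sum_filter]
      refine sum_le_sum fun x _ => ?_
      by_cases h2 : (X.fr x ∧ ¬ X.h3 c x ∧ X.pb c x b) ∧ v ∈ X.nf c x
      · rw [if_pos h2, if_pos ⟨h2.1, h2.2, pb_cq hE h2.1.2.2 (nf_light h2.2) h⟩]
      · rw [if_neg h2, if_neg (fun h3 => h2 ⟨h3.1, h3.2.1⟩)]
    · refine sum_nonneg fun x _ => ?_
      split_ifs
      · exact nfx_nonneg x b
      · exact le_rfl
  have h2 : ∀ x, (∑ v, if (X.fr x ∧ ¬ X.h3 c x ∧ X.pb c x b) ∧
      (v ∈ X.nf c x ∧ X.cq x ≠ X.cq v) then X.n x b / X.fx c x else 0) ≤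
      if X.bl x = none then X.n x b * (8 / X.d * (X.d : ℝ) ^ (c / 4)) else 0 := by
    intro x
    by_cases hP : X.fr x ∧ ¬ X.h3 c x ∧ X.pb c x b
    · have h3 : (∑ v, if (X.fr x ∧ ¬ X.h3 c x ∧ X.pb c x b) ∧
          (v ∈ X.nf c x ∧ X.cq x ≠ X.cq v) then X.n x b / X.fx c x else 0) =
          (((X.nf c x).filter fun v => X.cq x ≠ X.cq v).card : ℝ) *
          (X.n x b / X.fx c x) := by
        rw [← nsmul_eq_mul, ← sum_const, sum_filter]
        have h6 : (∑ v ∈ X.nf c x, if X.cq x ≠ X.cq v then X.n x b / X.fx c x else 0) =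
            ∑ v, if v ∈ X.nf c x then (if X.cq x ≠ X.cq v then X.n x b / X.fx c x else 0)
              else 0 := by
          rw [sum_ite_mem, univ_inter]
        rw [h6]
        refine sum_congr rfl fun v _ => ?_
        by_cases h4 : v ∈ X.nf c x
        · rw [if_pos h4]
          by_cases h5 : X.cq x ≠ X.cq v
          · rw [if_pos h5, if_pos ⟨hP, h4, h5⟩]
          · rw [if_neg h5, if_neg (fun h => h5 h.2.2)]
        · rw [if_neg h4, if_neg (fun h => h4 h.2.1)]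
      rw [h3, if_pos hP.1.1]
      have h4 : (X.d : ℝ) / 8 ≤ X.fx c x := by
        by_contra h5
        exact hP.2.1 ⟨hP.1, not_le.1 h5⟩
      have h5 : X.n x b / X.fx c x ≤ X.n x b * (8 / X.d) := by
        rw [div_eq_mul_inv]
        refine mul_le_mul_of_nonneg_left ?_ (n_nonneg x b)
        rw [inv_le_comm₀ (lt_of_lt_of_le (by positivity) h4) (by positivity), inv_div]
        exact h4
      calc (((X.nf c x).filter fun v => X.cq x ≠ X.cq v).card : ℝ) * (X.n x b / X.fx c x)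
          ≤ (X.d : ℝ) ^ (c / 4) * (X.n x b * (8 / X.d)) :=
            mul_le_mul (nf_out hP.1.1) h5 (nfx_nonneg x b) hD
        _ = _ := by ring
    · rw [sum_eq_zero fun v _ => if_neg fun h => hP h.1]
      split_ifs
      · exact mul_nonneg (n_nonneg x b) (by positivity)
      · exact le_rfl
  refine (sum_le_sum fun v _ => h1 v).trans ?_
  rw [sum_comm]
  refine (sum_le_sum fun x _ => h2 x).trans ?_
  rw [← sum_filter, ← sum_mul]
  calc (∑ x with X.bl x = none, X.n x b) * (8 / X.d * (X.d : ℝ) ^ (c / 4))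
      ≤ (C * ζ * X.d ^ 2) * (8 / X.d * (X.d : ℝ) ^ (c / 4)) :=
        mul_le_mul_of_nonneg_right (sum_nO hE hζ b) (by positivity)
    _ = _ := by
        field_simp

theorem sq_sum_le {α : Type*} (s : Finset α) (f : α → ℝ) {K S : ℝ} (hK : ∀ v, |f v| ≤ K)
    (hK0 : 0 ≤ K) (hS : ∑ v ∈ s, |f v| ≤ S) : ∑ v ∈ s, f v ^ 2 ≤ K * S := by
  have h1 : ∀ v, f v ^ 2 ≤ K * |f v| := by
    intro v
    rw [← sq_abs, sq]
    exact mul_le_mul_of_nonneg_right (hK v) (abs_nonneg _)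
  refine (sum_le_sum fun v _ => h1 v).trans ?_
  rw [← mul_sum]
  exact mul_le_mul_of_nonneg_left hS hK0

theorem use_o (hE : Env X M C ζ θ c) (hζ : 0 ≤ ζ) (hd : 1 ≤ X.d) {Ty : Kd → Prop} {g : ℕ}
    (L : W → Fin g) (k : Fin g) (b : B) {lg : ℝ} (hlg : 0 ≤ lg)
    (h : |∑ v with X.ty Ty v, tO X c b v * (X.mv Ty L k v - 1)| ≤ lg *
      (Real.sqrt (∑ v, tO X c b v ^ 2) + (∑ v, |tO X c b v|) / X.d)) :
    |∑ v, tO X c b v * (X.mv Ty L k v - 1)| ≤ lg *
      (Real.sqrt ((X.d : ℝ) ^ (1 - c) * (8 * C * ζ * X.d * (X.d : ℝ) ^ (c / 4))) +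
        8 * C * ζ * X.d * (X.d : ℝ) ^ (c / 4) / X.d) := by
  rw [ty_sum] at h
  have h0 : ∀ v, |tO X c b v| = tO X c b v := fun v => abs_of_nonneg (tO_nonneg b v)
  have h1 : ∑ v, |tO X c b v| ≤ 8 * C * ζ * X.d * (X.d : ℝ) ^ (c / 4) := by
    rw [sum_congr rfl fun v _ => h0 v]
    exact tO_sum hE hζ hd b
  refine h.trans (mul_le_mul_of_nonneg_left (add_le_add (Real.sqrt_le_sqrt ?_)
    (div_le_div_of_nonneg_right h1 (Nat.cast_nonneg _))) hlg)
  exact sq_sum_le univ _ (fun v => by rw [h0]; exact tO_le hE b v)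
    (Real.rpow_nonneg (Nat.cast_nonneg _) _) h1

theorem use_n1 (hE : Env X M C ζ θ c) {Ty : Kd → Prop} {gr : W → Fin 3} {g : ℕ}
    (L : W → Fin g) (k : Fin g) {K : ℝ} (hK : 0 ≤ K)
    (h : ∀ t b b', Ty (X.kd b) → X.cb b' = X.cb b →
      |∑ v ∈ blk X.bl b, Ff X c Ty gr (g := g) t L v b' * (X.mv Ty L k v - 1)| ≤ K) (b : B) :
    |∑ x with X.fr x ∧ ¬ X.h3 c x ∧ X.pb c x b,
      X.n x b / X.fx c x * ∑ v ∈ X.nf c x, (X.mv Ty L k v - 1)| ≤
    |∑ v, tO X c b v * (X.mv Ty L k v - 1)| + M * K := by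
  rw [n1_eq]
  refine (abs_add_le _ _).trans (add_le_add_right ?_ _)
  refine clus hE (Ty := Ty) (X.cb b) _ hK (fun v hv => ?_) (fun b' hb' hT => ?_)
  · have h1 : X.cq v = some (X.cb b) := by
      by_contra h'
      exact hv (if_neg h')
    refine ⟨?_, h1⟩
    by_contra h'
    refine hv ?_
    rw [mv_none h', sub_self, mul_zero, ite_self]
  · refine le_trans (le_of_eq ?_) (h (Sum.inl 1) b' b hT hb'.symm)
    congr 1
    refine sum_congr rfl fun v hv => ?_
    rw [if_pos (by rw [hE.cl v b' (mem_blk.1 hv), hb'])]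
    rfl

theorem use_n3 {Ty : Kd → Prop} {gr : W → Fin 3} {g : ℕ}
    (L : W → Fin g) (k : Fin g) {K : ℝ} (hK : 0 ≤ K)
    (h : ∀ t b b', Ty (X.kd b) → X.cb b' = X.cb b →
      |∑ v ∈ blk X.bl b, Ff X c Ty gr (g := g) t L v b' * (X.mv Ty L k v - 1)| ≤ K) (b : B) :
    |∑ v ∈ blk X.bl b, (X.mv Ty L k v - 1) *
      ((univ.filter fun x => X.bl x = none ∧ v ∈ X.nf c x).card : ℝ)| ≤ K ∧
    |∑ v ∈ blk X.bl b, (X.mv Ty L k v - 1) * (((nb X.Th v).filter fun w =>
      ¬ X.ty Ty w ∧ ∃ b', X.bl w = some b' ∧ X.cb b' = X.cb b).card : ℝ)| ≤ K := by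
  by_cases hb : Ty (X.kd b)
  · constructor
    · refine le_trans (le_of_eq ?_) (h (Sum.inl 2) b b hb rfl)
      congr 1
      exact sum_congr rfl fun v hv => mul_comm _ _
    · refine le_trans (le_of_eq ?_) (h (Sum.inl 3) b b hb rfl)
      congr 1
      exact sum_congr rfl fun v hv => mul_comm _ _
  · have h1 : ∀ v ∈ blk X.bl b, X.mv Ty L k v - 1 = 0 := by
      intro v hv
      rw [mv_none (fun h' => hb ((ty_iff (mem_blk.1 hv)).1 h')), sub_self]
    constructor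
    · rw [sum_eq_zero fun v hv => by rw [h1 v hv, zero_mul], abs_zero]
      exact hK
    · rw [sum_eq_zero fun v hv => by rw [h1 v hv, zero_mul], abs_zero]
      exact hK

theorem use_n8 (hE : Env X M C ζ θ c) {Ty : Kd → Prop} {gr : W → Fin 3} {g : ℕ}
    (L : W → Fin g) (k : Fin g) {K : ℝ} (hK : 0 ≤ K)
    (h : ∀ t b b', Ty (X.kd b) → X.cb b' = X.cb b →
      |∑ v ∈ blk X.bl b, Ff X c Ty gr (g := g) t L v b' * (X.mv Ty L k v - 1)| ≤ K) (b : B) :
    |∑ w with X.ty Ty w ∧ X.cq w = some (X.cb b),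
      (X.mv Ty L k w - 1) * ((nb X.Th w ∩ blk X.bl b).card : ℝ)| ≤ M * K := by
  rw [sum_filter]
  refine clus hE (Ty := Ty) (X.cb b) _ hK (fun v hv => ?_) (fun b' hb' hT => ?_)
  · by_contra h'
    exact hv (if_neg h')
  · refine le_trans (le_of_eq ?_) (h (Sum.inl 4) b' b hT hb'.symm)
    congr 1
    refine sum_congr rfl fun v hv => ?_
    rw [if_pos ⟨⟨b', mem_blk.1 hv, hT⟩, by rw [hE.cl v b' (mem_blk.1 hv), hb']⟩]
    exact mul_comm _ _

/-! ### noise at the vertices with half of their neighbours in `O` -/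

theorem h1_cq (hE : Env X M C ζ θ c) (hd : 1 ≤ X.d) {x : W} (h : X.h1 x) : X.cq x = none := by
  have hd' : (0 : ℝ) < X.d := by exact_mod_cast hd
  by_contra h'
  obtain ⟨q, hq⟩ := Option.ne_none_iff_exists'.1 h'
  have h1 := hE.v0n x q h.1 hq
  have h2 := h.2
  unfold Dat.nO at h2
  have h3 : Disjoint (nb X.FO x)
      ((nb X.G x).filter fun v => X.bl v ≠ none ∧ X.cq v = some q) := by
    rw [disjoint_left]
    intro v hv hv'
    exact (mem_filter.1 hv').2.1 (mem_nb.1 hv).2.2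
  have h4 : nb X.FO x ∪ ((nb X.G x).filter fun v => X.bl v ≠ none ∧ X.cq v = some q) ⊆
      nb X.G x := by
    intro v hv
    rcases mem_union.1 hv with h5 | h5
    · exact mem_nb.2 (mem_nb.1 h5).1
    · exact (mem_filter.1 h5).1
  have h5 := card_le_card h4
  rw [card_union_of_disjoint h3, hE.reg] at h5
  have h6 : ((nb X.FO x).card : ℝ) + (((nb X.G x).filter fun v =>
      X.bl v ≠ none ∧ X.cq v = some q).card : ℝ) ≤ X.d := by exact_mod_cast h5
  linarith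

theorem nf_cq (hE : Env X M C ζ θ c) {x v : W} (hx : X.cq x = none) (hv : v ∈ X.nf c x) :
    X.cq x ≠ X.cq v := by
  obtain ⟨b, hb⟩ := Option.ne_none_iff_exists'.1 (nf_light hv)
  rw [hx, hE.cl v b hb]
  simp

theorem tn_le {τ : Type u} [Fintype τ] (hE : Env X M C ζ θ c) (hd : 1 ≤ X.d) {β : τ → W → ℝ}
    {A : ℝ} (hC : 0 ≤ C) (hβ : FamH X β C A) (q : τ) (v : W) :
    |tn X c β q v| ≤ C * (X.d : ℝ) ^ (-c) := by
  have hd' : (0 : ℝ) < X.d := by exact_mod_cast hd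
  by_cases hv : X.bl v = none
  · unfold tn
    rw [filter_eq_empty_iff.2 fun x _ h => nf_light h hv, sum_empty, abs_zero]
    positivity
  · unfold tn
    have h1 : ∑ x with v ∈ X.nf c x, β q x =
        ∑ x with X.cq x ≠ X.cq v ∧ X.G.Adj x v, if v ∈ X.nf c x then β q x else 0 := by
      rw [sum_filter, sum_filter]
      refine sum_congr rfl fun x _ => ?_
      by_cases h2 : v ∈ X.nf c x
      · rw [if_pos h2]
        by_cases h3 : β q x = 0
        · rw [h3]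
          simp
        · rw [if_pos ⟨nf_cq hE (h1_cq hE hd (hβ.h1 q x h3)) h2, (nf_mem.1 h2).1⟩]
      · rw [if_neg h2, ite_self]
    rw [h1]
    have h4 : ∀ x, |if v ∈ X.nf c x then β q x else 0| ≤ C / X.d := by
      intro x
      split_ifs
      · exact hβ.sup q x
      · rw [abs_zero]
        positivity
    refine (abs_sum_le_sum_abs _ _).trans ((sum_le_sum fun x _ => h4 x).trans ?_)
    rw [sum_const, nsmul_eq_mul]
    calc ((univ.filter fun x => X.cq x ≠ X.cq v ∧ X.G.Adj x v).card : ℝ) * (C / X.d)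
        ≤ (X.d : ℝ) ^ (1 - c) * (C / X.d) :=
          mul_le_mul_of_nonneg_right (cntQ hE hv) (by positivity)
      _ = C * (X.d : ℝ) ^ (-c) := by
          rw [sub_eq_add_neg, Real.rpow_add hd', Real.rpow_one]
          field_simp

theorem tn_sum {τ : Type u} [Fintype τ] (hE : Env X M C ζ θ c) (hd : 1 ≤ X.d) {β : τ → W → ℝ}
    {A : ℝ} (hβ : FamH X β C A) (q : τ) :
    ∑ v, |tn X c β q v| ≤ C * (X.d : ℝ) ^ (c / 4) := by
  have h1 : ∀ v, |tn X c β q v| ≤ ∑ x, if v ∈ X.nf c x then |β q x| else 0 := by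
    intro v
    unfold tn
    refine (abs_sum_le_sum_abs _ _).trans ?_
    rw [sum_filter]
  refine (sum_le_sum fun v _ => h1 v).trans ?_
  rw [sum_comm]
  have h2 : ∀ x, (∑ v, if v ∈ X.nf c x then |β q x| else 0) ≤
      |β q x| * (X.d : ℝ) ^ (c / 4) := by
    intro x
    rw [sum_ite_mem, univ_inter, sum_const, nsmul_eq_mul, mul_comm]
    by_cases h3 : β q x = 0
    · rw [h3, abs_zero, zero_mul, zero_mul]
    · have hx := hβ.h1 q x h3
      have h4 := nf_out (c := c) hx.1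
      have h5 : ((X.nf c x).filter fun v => X.cq x ≠ X.cq v) = X.nf c x := by
        rw [filter_eq_self]
        exact fun v hv => nf_cq hE (h1_cq hE hd hx) hv
      rw [h5] at h4
      exact mul_le_mul_of_nonneg_left h4 (abs_nonneg _)
  refine (sum_le_sum fun x _ => h2 x).trans ?_
  rw [← sum_mul]
  exact mul_le_mul_of_nonneg_right (hβ.l1 q) (Real.rpow_nonneg (Nat.cast_nonneg _) _)

theorem use_nse {τ : Type u} [Fintype τ] (hE : Env X M C ζ θ c) (hd : 1 ≤ X.d) (hC : 0 ≤ C)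
    {β : τ → W → ℝ} {A : ℝ} (hβ : FamH X β C A) {Ty : Kd → Prop} {g : ℕ} (L : W → Fin g)
    (k : Fin g) (q : τ) {lg : ℝ} (hlg : 0 ≤ lg)
    (h : |∑ v with X.ty Ty v, tn X c β q v * (X.mv Ty L k v - 1)| ≤ lg *
      (Real.sqrt (∑ v, tn X c β q v ^ 2) + (∑ v, |tn X c β q v|) / X.d)) :
    |∑ x, β q x * ∑ v ∈ X.nf c x, (X.mv Ty L k v - 1)| ≤ lg *
      (Real.sqrt (C * (X.d : ℝ) ^ (-c) * (C * (X.d : ℝ) ^ (c / 4))) +
        C * (X.d : ℝ) ^ (c / 4) / X.d) := by
  rw [ty_sum] at h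
  have h0 : ∑ x, β q x * ∑ v ∈ X.nf c x, (X.mv Ty L k v - 1) =
      ∑ v, tn X c β q v * (X.mv Ty L k v - 1) := by
    have h1 := sum_swap (X := X) (c := c) (β q) (fun _ => True) (fun v => X.mv Ty L k v - 1)
    simp only [filter_true, true_and] at h1
    rw [h1]
    rfl
  rw [h0]
  have h1 := tn_sum hE hd hβ q
  refine h.trans (mul_le_mul_of_nonneg_left (add_le_add (Real.sqrt_le_sqrt ?_)
    (div_le_div_of_nonneg_right h1 (Nat.cast_nonneg _))) hlg)
  exact sq_sum_le univ _ (fun v => tn_le hE hd hC hβ q v)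
    (mul_nonneg hC (Real.rpow_nonneg (Nat.cast_nonneg _) _)) h1

end Pool.Agent.Work.MP_db9399_ts.helper61
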