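import Pool.Agent.Work.MP_db9399_ts_helper61.FLBg

/-!
# MP_db9399, TSPLIT, block FLB, part 8: assembly (helper61)
-/

set_option autoImplicit false
set_option linter.unusedSectionVars false

namespace Pool.Agent.Work.MP_db9399_ts.helper61

open Finset Classical
open Pool.Agent.Work.MP_db9399_all (nb)
open Pool.Agent.Work.MP_db9399_clj.helper75 (OO blk nB eE)
open Pool.Agent.Work.MP_db9399_ts

universe u

/-- FLB from PHASE and FSY. -/
theorem flb (hP : Stmt_PHASE.{u}) (hF : Stmt_FSY.{u}) : Stmt_FLB.{u} := by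
  intro g m M C σ1 ε ε' hg hC hσ1 hε hε' hε'1
  obtain ⟨Cm, hCm, hcore⟩ := core2 hP hF g m M (Fin 5 ⊕ Fin g) hg
  set ζ0 : ℝ := min (1 / 64) (min ε ε' / (144 * (M + 1) * (Cm + 1))) with hζd
  have hq0 : (0 : ℝ) < 144 * (M + 1) * (Cm + 1) := by positivity
  have hζ0 : 0 < ζ0 := lt_min (by norm_num) (div_pos (lt_min hε hε') hq0)
  have hζ1 : ζ0 ≤ 1 / 64 := min_le_left _ _
  have hζ2 : 144 * (M + 1) * (Cm + 1) * ζ0 ≤ min ε ε' := by
    have h1 : ζ0 ≤ min ε ε' / (144 * (M + 1) * (Cm + 1)) := min_le_right _ _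
    rw [le_div_iff₀ hq0] at h1
    linarith
  have hM0 : (0 : ℝ) ≤ M := Nat.cast_nonneg _
  have hζ3 : 144 * (M * (Cm * ζ0)) ≤ min ε ε' := by
    refine le_trans ?_ hζ2
    have h1 : (M : ℝ) * Cm ≤ (M + 1) * (Cm + 1) := by nlinarith
    nlinarith
  have hζ4 : 144 * (Cm * ζ0) ≤ min ε ε' := by
    refine le_trans ?_ hζ2
    have h1 : Cm ≤ (M + 1) * (Cm + 1) := by nlinarith
    nlinarith
  refine ⟨Cm, ζ0, hCm, hζ0, hζ1, fun c A hc hc1 hA => ?_⟩
  obtain ⟨d1, hcore⟩ := hcore C σ1 c (A + 4) hC hσ1 hc hc1 (by linarith)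
  obtain ⟨d2, a1⟩ := asy 2 (-(c / 32)) (-(c / 40)) (by linarith)
  obtain ⟨d3, a2⟩ := asy 2 (-(c / 8)) (-(c / 40)) (by linarith)
  obtain ⟨d4, a3⟩ := asy 12 (-(c / 8)) 0 (by linarith)
  obtain ⟨d5, a4⟩ := asy0 (2 * M) (c / 16) (1 / 6) (by positivity) (by linarith)
  obtain ⟨d6, a5⟩ := asy0 2 (c / 4) (1 / 6) (by norm_num) (by linarith)
  obtain ⟨d7, a6⟩ := asy (32 * C / ε) (1 - 3 * c / 8) 1 (by linarith)
  obtain ⟨d8, a7⟩ := asy (2 * C) (-(3 * c / 8)) (-(c / 10)) (by linarith)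
  obtain ⟨d9, a8⟩ := asy0 (1 / ε') (1 / 2) 1 (by positivity) (by norm_num)
  obtain ⟨d10, a9⟩ := asy0 2 0 (1 / 4) (by norm_num) (by norm_num)
  refine ⟨d1 + d2 + d3 + d4 + d5 + d6 + d7 + d8 + d9 + d10 + ⌈2 * C⌉₊, ?_⟩
  intro W B τ τ' τ'' _ _ _ _ _ X Ty gr σ off α γ β u U cnt hd hσ hσ' hE hG hTy hoff hext
  have hd3 : 3 ≤ X.d := (a1 X.d (by omega)).1
  have hd3' : (3 : ℝ) ≤ X.d := by exact_mod_cast hd3
  have hdp : (0 : ℝ) < X.d := by linarith
  have hd1 : (1 : ℝ) ≤ X.d := by linarith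
  have hC2 : 2 * C ≤ X.d := (Nat.le_ceil _).trans (by
    have : ⌈2 * C⌉₊ ≤ X.d := by omega
    exact_mod_cast this)
  have hCd : C ≤ X.d := by linarith
  have hlg : 0 ≤ Real.log X.d ^ 2 := sq_nonneg _
  have b1 := (a1 X.d (by omega)).2
  have b2 := (a2 X.d (by omega)).2
  have b3 := (a3 X.d (by omega)).2
  have b4 := (a4 X.d (by omega)).2
  have b5 := (a5 X.d (by omega)).2
  have b6 := (a6 X.d (by omega)).2
  have b7 := (a7 X.d (by omega)).2
  have b8 := (a8 X.d (by omega)).2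
  have b9 := (a9 X.d (by omega)).2
  rw [Real.rpow_zero] at b3 b9
  rw [Real.rpow_one] at b6 b8
  have hpw : ∀ a b : ℝ, a ≤ b → (X.d : ℝ) ^ a ≤ (X.d : ℝ) ^ b := fun a b h =>
    Real.rpow_le_rpow_of_exponent_le hd1 h
  have hp0 : ∀ a : ℝ, 0 ≤ (X.d : ℝ) ^ a := fun a => Real.rpow_nonneg hdp.le _
  have hst : ∀ a : ℝ, 2 * (X.d : ℝ) ^ a ≤ (X.d : ℝ) ^ (a + 1 / 4) := by
    intro a
    rw [Real.rpow_add hdp, mul_comm]
    exact mul_le_mul_of_nonneg_left (by linarith) (hp0 a)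
  have hE' : Env X M C (1 / 64) (1 / 64) c :=
    { hE with
      thn := fun v hv => (hE.thn v hv).trans (mul_le_mul_of_nonneg_right hζ1 hdp.le)
      v0c := fun q => (hE.v0c q).trans (mul_le_mul_of_nonneg_right hζ1 hdp.le) }
  have hU0 : ∀ l b, 0 ≤ U l b := by
    intro l b
    have h1 := (hE.sz b).1
    have h2 : 0 < ((blk X.bl b).card : ℝ) := by linarith
    obtain ⟨v, hv⟩ := card_pos.1 (by exact_mod_cast h2 : 0 < (blk X.bl b).card)
    exact (abs_nonneg _).trans (hext.u0 l v b (mem_blk.1 hv))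
  have hfam : Fam (Sum.elim α (Sum.elim (tf X) (Sum.elim (t1 X) (Sum.elim (tO X c)
      (tn X c β))))) X.d (A + 4) := by
    have f1 : Fam (Sum.elim (tO X c) (tn X c β)) X.d (A + 3 + 1 / 4) :=
      Fam.sum (Fam.mono (fam_o hE hCd (by omega)) (hpw _ _ (by linarith)))
        (Fam.mono (fam_n hE (by omega) hext.b.fam) (hpw _ _ (by linarith))) (hst (A + 3))
    have f2 : Fam (Sum.elim (t1 X) (Sum.elim (tO X c) (tn X c β))) X.d
        (A + 3 + 1 / 4 + 1 / 4) :=
      Fam.sum (Fam.mono (fam_1 hE hCd (by omega)) (hpw _ _ (by linarith))) f1 (hst _)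
    have f3 : Fam (Sum.elim (tf X) (Sum.elim (t1 X) (Sum.elim (tO X c) (tn X c β)))) X.d
        (A + 3 + 1 / 4 + 1 / 4 + 1 / 4) :=
      Fam.sum (Fam.mono (fam_f hE) (hpw _ _ (by linarith))) f2 (hst _)
    have f4 := Fam.sum (Fam.mono hext.a (hpw A (A + 3 + 1 / 4 + 1 / 4 + 1 / 4) (by linarith))) f3
      (hst _)
    exact Fam.mono f4 (hpw _ _ (by linarith))
  obtain ⟨L, w', o1, o2, o3, o4, o5, o6, o7, o8⟩ := hcore X Ty gr σ off u U
    (Ff X c Ty gr) (ζ0 * X.d)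
    (Sum.elim α (Sum.elim (tf X) (Sum.elim (t1 X) (Sum.elim (tO X c) (tn X c β)))))
    (Sum.elim γ (g2 X Ty gr)) cnt (by omega) hσ hσ' hE' hG hTy (fun k => (hoff k).bd)
    hext.u0 hU0 (by positivity) (fun t L v b' hv => Ff_abs hE Ty gr t L v b' hv)
    (fun t L L' v b' h => Ff_adp Ty gr t L L' v b' h) hfam
    (by
      rintro (q | q) v w
      · exact hext.c0 q v w
      · exact g2_nonneg Ty gr q v w)
    (by
      rintro (q | q) v w h
      · exact hext.c1 q v w h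
      · obtain ⟨⟨h1, h2⟩, ⟨_, h3⟩, h4, h5, _⟩ := g2_ne h
        exact ⟨⟨_, h1, h4⟩, ⟨_, h2, h5⟩, h3⟩)
    (by
      rintro (q | q)
      · exact (hext.c2 q).trans (hpw _ _ (by linarith))
      · exact (g2_c2 hE Ty gr hC2 q).trans (hpw _ _ (by linarith)))
    (by
      intro v
      rw [gsum_c3]
      push_cast
      have h1 := (hext.c3 v).trans (hpw A (A + 3) (by linarith))
      have h2 := (g2_c3 hE Ty gr (by omega) v).trans (hpw 2 (A + 3) (by linarith))
      have h3 := hst (A + 3)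
      have h4 := hpw (A + 3 + 1 / 4) (A + 4) (by linarith)
      linarith)
    hext.s hext.n
  have hK0 : 0 ≤ Cm * (ζ0 * X.d) := by positivity
  have hKε : 144 * (Cm * (ζ0 * X.d)) ≤ ε * X.d := by
    have h1 := mul_le_mul_of_nonneg_right (hζ4.trans (min_le_left _ _)) hdp.le
    linarith
  have hKε' : 144 * (Cm * (ζ0 * X.d)) ≤ ε' * X.d := by
    have h1 := mul_le_mul_of_nonneg_right (hζ4.trans (min_le_right _ _)) hdp.le
    linarith
  have hMKε : 144 * (M * (Cm * (ζ0 * X.d))) ≤ ε * X.d := by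
    have h1 := mul_le_mul_of_nonneg_right (hζ3.trans (min_le_left _ _)) hdp.le
    linarith
  have hεd : 0 < ε * X.d := by positivity
  have o7' : ∀ k t b b', Ty (X.kd b) → X.cb b' = X.cb b →
      |∑ v ∈ blk X.bl b, Ff X c Ty gr (g := g) t L v b' * (X.mv Ty L k v - 1)| ≤
      Cm * (ζ0 * X.d) := fun k t b b' h h' => o7 t b b' k h h'
  have hinv : ∀ n t : ℝ, 0 ≤ n → t ≤ 1 → n / X.d ≤ n * (X.d : ℝ) ^ (-t) := by
    intro n t hn ht
    rw [div_eq_mul_inv, ← Real.rpow_neg_one]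
    exact mul_le_mul_of_nonneg_left (hpw _ _ (by linarith)) hn
  refine ⟨L, w', ?_, ?_⟩
  · refine ⟨o1, o2, o3, fun k x b hx hf hb => ?_, fun k x hx => ?_, fun k b b' hbb he hb hb' => ?_,
      fun k b b' hbb he hb hb' => ?_, fun k b b' hbb hb hb' he => ?_, fun k b => ?_,
      fun k b => ?_, fun k b => ?_, fun k b _ => ?_⟩
    · -- fat
      refine (use_f hg L k hx hb (o4 (Sum.inr (Sum.inl (x, b))) k)).trans ?_
      have hn0 : 0 ≤ X.n x b := n_nonneg x b
      have h1 : Real.sqrt (1 * X.n x b) ≤ X.n x b * (X.d : ℝ) ^ (-(c / 32)) := by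
        refine sqrt_bd (by omega) hn0 ?_
        calc (1 : ℝ) = (X.d : ℝ) ^ (c / 16) * (X.d : ℝ) ^ (-(2 * (c / 32))) := by
              rw [← Real.rpow_add hdp, show c / 16 + -(2 * (c / 32)) = 0 by ring,
                Real.rpow_zero]
          _ ≤ _ := mul_le_mul_of_nonneg_right hf (hp0 _)
      rw [one_mul] at h1
      have h2 := hinv (X.n x b) (c / 32) hn0 (by linarith)
      calc Real.log X.d ^ 2 * (Real.sqrt (X.n x b) + X.n x b / X.d)
          ≤ Real.log X.d ^ 2 * (2 * (X.n x b * (X.d : ℝ) ^ (-(c / 32)))) :=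
            mul_le_mul_of_nonneg_left (by linarith) hlg
        _ = 2 * Real.log X.d ^ 2 * (X.d : ℝ) ^ (-(c / 32)) * X.n x b := by ring
        _ ≤ _ := mul_le_mul_of_nonneg_right b1 hn0
    · -- ns
      refine (abs_sum_le_sum_abs _ _).trans ((sum_le_sum fun v _ => mv_abs hg L k v).trans ?_)
      rw [sum_const, nsmul_eq_mul, mul_one]
      refine (nf_card hE hx).trans ?_
      linarith
    · -- th1
      refine (use_1 hE hg L k hbb hb hb' hlg (o4 (Sum.inr (Sum.inr (Sum.inl (b, b')))) k)).trans ?_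
      have hn0 : 0 ≤ X.e b b' := (hp0 _).trans he
      have h1 : Real.sqrt ((X.d : ℝ) ^ (1 - c) * X.e b b') ≤
          X.e b b' * (X.d : ℝ) ^ (-(c / 8)) := by
        refine sqrt_bd (by omega) hn0 ?_
        calc (X.d : ℝ) ^ (1 - c) = (X.d : ℝ) ^ (1 - 3 * c / 4) * (X.d : ℝ) ^ (-(2 * (c / 8))) := by
              rw [← Real.rpow_add hdp]
              congr 1
              ring
          _ ≤ _ := mul_le_mul_of_nonneg_right he (hp0 _)
      have h2 := hinv (X.e b b') (c / 8) hn0 (by linarith)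
      calc Real.log X.d ^ 2 * (Real.sqrt ((X.d : ℝ) ^ (1 - c) * X.e b b') + X.e b b' / X.d)
          ≤ Real.log X.d ^ 2 * (2 * (X.e b b' * (X.d : ℝ) ^ (-(c / 8)))) :=
            mul_le_mul_of_nonneg_left (by linarith) hlg
        _ = 2 * Real.log X.d ^ 2 * (X.d : ℝ) ^ (-(c / 8)) * X.e b b' := by ring
        _ ≤ _ := mul_le_mul_of_nonneg_right b2 hn0
    · -- th2
      refine use_2 hE hg hG L k hbb hb hb' he hlg (o5 (Sum.inr (b, b')) k k) ?_
      have hn0 : 0 ≤ X.e b b' := (hp0 _).trans he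
      have h1 : Real.sqrt (4 * (X.d : ℝ) ^ (1 - c) * X.e b b') ≤
          2 * (X.e b b' * (X.d : ℝ) ^ (-(c / 8))) := by
        rw [show 4 * (X.d : ℝ) ^ (1 - c) * X.e b b' =
          2 ^ 2 * ((X.d : ℝ) ^ (1 - c) * X.e b b') by ring,
          Real.sqrt_mul (by norm_num), Real.sqrt_sq (by norm_num)]
        refine mul_le_mul_of_nonneg_left (sqrt_bd (by omega) hn0 ?_) (by norm_num)
        calc (X.d : ℝ) ^ (1 - c) = (X.d : ℝ) ^ (1 - 3 * c / 4) * (X.d : ℝ) ^ (-(2 * (c / 8))) := by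
              rw [← Real.rpow_add hdp]
              congr 1
              ring
          _ ≤ _ := mul_le_mul_of_nonneg_right he (hp0 _)
      have h2 := hinv (X.e b b') (c / 8) hn0 (by linarith)
      calc Real.log X.d ^ 2 * (Real.sqrt (4 * (X.d : ℝ) ^ (1 - c) * X.e b b') +
            X.e b b' / X.d)
          ≤ Real.log X.d ^ 2 * (3 * (X.e b b' * (X.d : ℝ) ^ (-(c / 8)))) :=
            mul_le_mul_of_nonneg_left (by linarith) hlg
        _ = 12 * Real.log X.d ^ 2 * (X.d : ℝ) ^ (-(c / 8)) * (X.e b b' / 4) := by ring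
        _ ≤ 1 * (X.e b b' / 4) := mul_le_mul_of_nonneg_right b3 (by linarith)
        _ = _ := one_mul _
    · -- in2
      refine use_in hg hG L k (o7' k) hbb hb hb' ?_ ?_
      · refine le_trans ?_ he
        rw [Real.sqrt_eq_rpow]
        have h1 := mul_le_mul_of_nonneg_left b8 hε'.le
        rw [← mul_assoc, mul_one_div_cancel hε'.ne', one_mul] at h1
        exact h1
      · linarith
    · -- n1
      refine (use_n1 hE L k hK0 (o7' k) b).trans ?_
      have h1 := use_o hE hζ0.le (by omega) L k b hlg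
        (o4 (Sum.inr (Sum.inr (Sum.inr (Sum.inl b)))) k)
      have h2 : |∑ v, tO X c b v * (X.mv Ty L k v - 1)| ≤ ε / 2 * X.d := by
        refine h1.trans ?_
        have h3 : 8 * C * ζ0 * X.d * (X.d : ℝ) ^ (c / 4) ≤ 8 * C * (X.d : ℝ) ^ (1 + c / 4) := by
          rw [Real.rpow_add hdp, Real.rpow_one]
          have h4 : 8 * C * ζ0 ≤ 8 * C := by nlinarith
          have h5 := mul_le_mul_of_nonneg_right h4
            (mul_nonneg hdp.le (hp0 (c / 4)))
          linarith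
        have h4 : Real.sqrt ((X.d : ℝ) ^ (1 - c) * (8 * C * ζ0 * X.d * (X.d : ℝ) ^ (c / 4))) ≤
            8 * C * (X.d : ℝ) ^ (1 - 3 * c / 8) := by
          rw [← Real.sqrt_sq (show 0 ≤ 8 * C * (X.d : ℝ) ^ (1 - 3 * c / 8) by
            have := hp0 (1 - 3 * c / 8)
            positivity)]
          refine Real.sqrt_le_sqrt ?_
          calc (X.d : ℝ) ^ (1 - c) * (8 * C * ζ0 * X.d * (X.d : ℝ) ^ (c / 4))
              ≤ (X.d : ℝ) ^ (1 - c) * (8 * C * (X.d : ℝ) ^ (1 + c / 4)) :=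
                mul_le_mul_of_nonneg_left h3 (hp0 _)
            _ = 8 * C * ((X.d : ℝ) ^ (1 - c) * (X.d : ℝ) ^ (1 + c / 4)) := by ring
            _ = 8 * C * ((X.d : ℝ) ^ (1 - 3 * c / 8) * (X.d : ℝ) ^ (1 - 3 * c / 8)) := by
                rw [← Real.rpow_add hdp, ← Real.rpow_add hdp]
                congr 2
                ring
            _ ≤ (8 * C) * (8 * C) * ((X.d : ℝ) ^ (1 - 3 * c / 8) *
                (X.d : ℝ) ^ (1 - 3 * c / 8)) := by
                refine mul_le_mul_of_nonneg_right ?_ (mul_nonneg (hp0 _) (hp0 _))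
                nlinarith
            _ = _ := by ring
        have h5 : 8 * C * ζ0 * X.d * (X.d : ℝ) ^ (c / 4) / X.d ≤
            8 * C * (X.d : ℝ) ^ (1 - 3 * c / 8) := by
          rw [div_le_iff₀ hdp]
          refine h3.trans ?_
          rw [mul_assoc (8 * C)]
          refine mul_le_mul_of_nonneg_left ?_ (by linarith)
          calc (X.d : ℝ) ^ (1 + c / 4) ≤ (X.d : ℝ) ^ (1 - 3 * c / 8 + 1) :=
                hpw _ _ (by linarith)
            _ = _ := by rw [Real.rpow_add hdp, Real.rpow_one]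
        calc Real.log X.d ^ 2 * (Real.sqrt ((X.d : ℝ) ^ (1 - c) *
              (8 * C * ζ0 * X.d * (X.d : ℝ) ^ (c / 4))) +
              8 * C * ζ0 * X.d * (X.d : ℝ) ^ (c / 4) / X.d)
            ≤ Real.log X.d ^ 2 * (16 * C * (X.d : ℝ) ^ (1 - 3 * c / 8)) :=
              mul_le_mul_of_nonneg_left (by linarith) hlg
          _ = ε / 2 * (32 * C / ε * Real.log X.d ^ 2 * (X.d : ℝ) ^ (1 - 3 * c / 8)) := by
              field_simp
              ring
          _ ≤ _ := mul_le_mul_of_nonneg_left b6 (by linarith)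
      linarith
    · -- n3
      refine (use_n3 L k hK0 (o7' k) b).1.trans ?_
      linarith
    · -- n7
      refine (use_n3 L k hK0 (o7' k) b).2.trans ?_
      linarith
    · -- n8
      refine (use_n8 hE L k hK0 (o7' k) b).trans ?_
      linarith
  · refine ⟨fun q k => o4 (Sum.inl q) k, fun q k k' => o5 (Sum.inl q) k k',
      fun l b k hb => o6 l b k hb, fun q k => ?_, fun b k hb => o8 b k hb⟩
    refine (use_nse hE (by omega) (by linarith) hext.b L k q hlg
      (o4 (Sum.inr (Sum.inr (Sum.inr (Sum.inr q)))) k)).trans ?_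
    have h4 : Real.sqrt (C * (X.d : ℝ) ^ (-c) * (C * (X.d : ℝ) ^ (c / 4))) =
        C * (X.d : ℝ) ^ (-(3 * c / 8)) := by
      rw [← Real.sqrt_sq (show 0 ≤ C * (X.d : ℝ) ^ (-(3 * c / 8)) by
        have := hp0 (-(3 * c / 8))
        positivity)]
      congr 1
      calc C * (X.d : ℝ) ^ (-c) * (C * (X.d : ℝ) ^ (c / 4))
          = C ^ 2 * ((X.d : ℝ) ^ (-c) * (X.d : ℝ) ^ (c / 4)) := by ring
        _ = C ^ 2 * ((X.d : ℝ) ^ (-(3 * c / 8)) * (X.d : ℝ) ^ (-(3 * c / 8))) := by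
            rw [← Real.rpow_add hdp, ← Real.rpow_add hdp]
            congr 2
            ring
        _ = _ := by ring
    have h5 : C * (X.d : ℝ) ^ (c / 4) / X.d ≤ C * (X.d : ℝ) ^ (-(3 * c / 8)) := by
      rw [div_le_iff₀ hdp, mul_assoc]
      refine mul_le_mul_of_nonneg_left ?_ (by linarith)
      calc (X.d : ℝ) ^ (c / 4) ≤ (X.d : ℝ) ^ (-(3 * c / 8) + 1) := hpw _ _ (by linarith)
        _ = _ := by rw [Real.rpow_add hdp, Real.rpow_one]
    calc Real.log X.d ^ 2 * (Real.sqrt (C * (X.d : ℝ) ^ (-c) * (C * (X.d : ℝ) ^ (c / 4))) +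
          C * (X.d : ℝ) ^ (c / 4) / X.d)
        ≤ Real.log X.d ^ 2 * (2 * (C * (X.d : ℝ) ^ (-(3 * c / 8)))) :=
          mul_le_mul_of_nonneg_left (by linarith) hlg
      _ = 2 * C * Real.log X.d ^ 2 * (X.d : ℝ) ^ (-(3 * c / 8)) := by ring
      _ ≤ _ := b7

end Pool.Agent.Work.MP_db9399_ts.helper61
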